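import Mathlib
import Pool.Agent.H27Z.PH.Shoot

set_option autoImplicit false

namespace Pool.Agent.H27Z.AM

open Set Filter Topology Pool.Agent.H27Z.PH
open scoped NNReal

section family

variable {Φ : ℝ → ℝ → ℝ → ℝ} {k1 k2 : ℝ}

theorem exists_family'
    (hΦ : ContDiffOn ℝ 1 (fun w : ℝ × ℝ × ℝ => Φ w.1 w.2.1 w.2.2)
      (Icc k1 k2 ×ˢ Ioo (-1) 1 ×ˢ univ)) :
    ∃ Z : ℝ → ℝ → ℝ, (∀ k ∈ Icc k1 k2, Z k 0 = 0 ∧
      (∀ c ∈ Ioo (-1 : ℝ) 1, HasDerivAt (Z k) (Φ k c (cl (Z k c))) c)) ∧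
      ∀ c ∈ Ico (0 : ℝ) 1, ContinuousOn (fun k => Z k c) (Icc k1 k2) := by
  have H : ∀ k : ℝ, ∃ f : ℝ → ℝ, k ∈ Icc k1 k2 →
      f 0 = 0 ∧ ∀ c ∈ Ioo (-1 : ℝ) 1, HasDerivAt f (Φ k c (cl (f c))) c := by
    intro k
    by_cases h : k ∈ Icc k1 k2
    · obtain ⟨f, hf⟩ := exists_global hΦ h
      exact ⟨f, fun _ => hf⟩
    · exact ⟨fun _ => 0, fun h1 => absurd h1 h⟩
  choose Z hZ using H
  refine ⟨Z, hZ, fun c hc => ?_⟩
  have hT0 : 0 < (c + 1) / 2 := by linarith [hc.1]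
  have hT1 : (c + 1) / 2 < 1 := by linarith [hc.2]
  obtain ⟨K, L, hK, -⟩ := lip_bound hΦ hT1
  intro k hk
  have hb : ∀ k' ∈ Icc k1 k2, dist (Z k' c) (Z k c) ≤
      gronwallBound 0 K (K * |k' - k| + 0) (c - 0) := by
    intro k' hk'
    have hsub : ∀ t ∈ Icc (0 : ℝ) c, t ∈ Ioo (-1 : ℝ) 1 :=
      fun t ht => ⟨by linarith [ht.1], by linarith [ht.2, hc.2]⟩
    have hsub2 : ∀ t ∈ Ico (0 : ℝ) c, t ∈ Icc (-((c + 1) / 2)) ((c + 1) / 2) :=
      fun t ht => ⟨by linarith [ht.1], by linarith [ht.2, hc.2]⟩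
    refine dist_le_of_approx_trajectories_ODE_of_mem (v := fun t z => Φ k t (cl z))
      (s := fun _ => univ) (f := Z k') (g := Z k)
      (f' := fun t => Φ k' t (cl (Z k' t))) (g' := fun t => Φ k t (cl (Z k t)))
      (fun t ht => (lip_z hK hk (hsub2 t ht)).lipschitzOnWith)
      (fun t ht => ((hZ k' hk').2 t (hsub t ht)).continuousAt.continuousWithinAt)
      (fun t ht => ((hZ k' hk').2 t (hsub t (Ico_subset_Icc_self ht))).hasDerivWithinAt)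
      (fun t ht => ?_) (fun _ _ => mem_univ _)
      (fun t ht => ((hZ k hk).2 t (hsub t ht)).continuousAt.continuousWithinAt)
      (fun t ht => ((hZ k hk).2 t (hsub t (Ico_subset_Icc_self ht))).hasDerivWithinAt)
      (fun t ht => by simp) (fun _ _ => mem_univ _)
      (by rw [(hZ k' hk').1, (hZ k hk).1]; simp) c ⟨hc.1, le_rfl⟩
    have h := hK k' hk' k hk t (hsub2 t ht) t (hsub2 t ht) (Z k' t) (Z k' t)
    simpa [Real.dist_eq] using h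
  have hlim : Tendsto (fun k' => gronwallBound 0 K (K * |k' - k| + 0) (c - 0))
      (𝓝[Icc k1 k2] k) (𝓝 0) := by
    have h1 : Continuous (fun k' : ℝ => gronwallBound 0 K (K * |k' - k| + 0) (c - 0)) :=
      (gronwallBound_continuous_ε 0 K (c - 0)).comp (by fun_prop)
    have h2 := h1.tendsto k
    simp only [sub_self, abs_zero, mul_zero, add_zero, gronwallBound_ε0_δ0] at h2
    simpa using h2.mono_left nhdsWithin_le_nhds
  rw [ContinuousWithinAt, tendsto_iff_dist_tendsto_zero]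
  refine squeeze_zero' (Eventually.of_forall fun _ => dist_nonneg) ?_ hlim
  filter_upwards [self_mem_nhdsWithin] with k' hk' using hb k' hk'

lemma comp_le
    (hΦ : ContDiffOn ℝ 1 (fun w : ℝ × ℝ × ℝ => Φ w.1 w.2.1 w.2.2)
      (Icc k1 k2 ×ˢ Ioo (-1) 1 ×ˢ univ)) {k : ℝ} (hk : k ∈ Icc k1 k2) {f f' g g' : ℝ → ℝ}
    (hf : ∀ c ∈ Ico (0 : ℝ) 1, HasDerivAt f (f' c) c)
    (hg : ∀ c ∈ Ico (0 : ℝ) 1, HasDerivAt g (g' c) c) (h0 : f 0 ≤ g 0)
    (hsub : ∀ c ∈ Ico (0 : ℝ) 1, f' c ≤ Φ k c (cl (f c)))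
    (hsup : ∀ c ∈ Ico (0 : ℝ) 1, Φ k c (cl (g c)) ≤ g' c) :
    ∀ c ∈ Ico (0 : ℝ) 1, f c ≤ g c := by
  intro c hc
  obtain ⟨K, L, hK, -⟩ := lip_bound hΦ hc.2
  have hK0 : (0 : ℝ) ≤ K := K.2
  have key : ∀ ε : ℝ, 0 < ε → f c - ε * Real.exp ((K + 1) * c) ≤ g c := by
    intro ε hε
    have hs : ∀ t ∈ Icc (0 : ℝ) c, t ∈ Ico (0 : ℝ) 1 := fun t ht => ⟨ht.1, lt_of_le_of_lt ht.2 hc.2⟩
    have hd : ∀ t ∈ Ico (0 : ℝ) 1, HasDerivAt (fun t => f t - ε * Real.exp ((K + 1) * t))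
        (f' t - ε * (Real.exp ((K + 1) * t) * ((K + 1) * 1))) t :=
      fun t ht => (hf t ht).sub ((((hasDerivAt_id t).const_mul _).exp).const_mul ε)
    refine image_le_of_deriv_right_lt_deriv_boundary' (a := 0) (b := c)
      (f := fun t => f t - ε * Real.exp ((K + 1) * t))
      (f' := fun t => f' t - ε * (Real.exp ((K + 1) * t) * ((K + 1) * 1))) (B := g) (B' := g')
      (fun t ht => (hd t (hs t ht)).continuousAt.continuousWithinAt)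
      (fun t ht => (hd t (hs t (Ico_subset_Icc_self ht))).hasDerivWithinAt)
      (by simp; linarith)
      (fun t ht => (hg t (hs t ht)).continuousAt.continuousWithinAt)
      (fun t ht => (hg t (hs t (Ico_subset_Icc_self ht))).hasDerivWithinAt)
      (fun t ht h => ?_) ⟨hc.1, le_rfl⟩
    have ht' := hs t (Ico_subset_Icc_self ht)
    have htc : t ∈ Icc (-c) c := ⟨by linarith [ht.1, hc.1], ht.2.le⟩
    have h1 := hK k hk k hk t htc t htc (f t) (g t)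
    have he := Real.exp_pos ((K + 1) * t)
    have h2 : |f t - g t| = ε * Real.exp ((K + 1) * t) := by
      rw [abs_of_nonneg (by nlinarith)]; linarith
    simp only [sub_self, abs_zero, abs_nonneg, max_eq_right, h2] at h1
    rw [max_eq_right (by positivity), max_eq_right (by positivity)] at h1
    have h3 := (abs_le.1 h1).2
    have h4 := hsub t ht'
    have h5 := hsup t ht'
    nlinarith [mul_pos hε he]
  refine le_of_forall_pos_le_add fun δ hδ => ?_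
  have he := Real.exp_pos ((K + 1) * c)
  have := key (δ / Real.exp ((K + 1) * c)) (by positivity)
  rw [div_mul_cancel₀ _ he.ne'] at this
  linarith

end family

noncomputable def Dq (k t z : ℝ) : ℝ := k ^ 2 * (z - 1) ^ 2 + (1 - t ^ 2) * z ^ 2

noncomputable def D1 (k t z : ℝ) : ℝ := k ^ 2 * (z - 1) ^ 2 + 2 * (1 - t ^ 2) * z ^ 2

noncomputable def Num (k t z : ℝ) : ℝ :=
  (3 * t * z - (2 * k + 1) * k * (z - 1)) * Dq k t z -
    (1 - t ^ 2) * z ^ 2 * (k ^ 2 * (z - 1) - t * z)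

noncomputable def Yq (k t z : ℝ) : ℝ := Num k t z / ((1 - t ^ 2) * D1 k t z)

noncomputable def Phi (k t z : ℝ) : ℝ := z ^ 2 - (z - 1) * Yq k t z

lemma Dq_pos {k t z : ℝ} (hk : 0 < k) (ht : t ∈ Ioo (-1 : ℝ) 1) : 0 < Dq k t z := by
  unfold Dq
  have hu := u_pos ht
  by_cases hz : z = 0
  · subst hz; simp; positivity
  · positivity

lemma D1_pos {k t z : ℝ} (hk : 0 < k) (ht : t ∈ Ioo (-1 : ℝ) 1) : 0 < D1 k t z := by
  unfold D1
  have hu := u_pos ht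
  by_cases hz : z = 0
  · subst hz; simp; positivity
  · positivity

lemma Yq_contDiffOn :
    ContDiffOn ℝ 1 (fun w : ℝ × ℝ × ℝ => Yq w.1 w.2.1 w.2.2)
      (Icc (3 / 2) 2 ×ˢ Ioo (-1) 1 ×ˢ univ) := by
  unfold Yq
  refine ContDiffOn.div ?_ ?_ ?_
  · unfold Num Dq
    fun_prop
  · unfold D1
    fun_prop
  · rintro ⟨k, c, z⟩ ⟨hk, hc, -⟩
    have h1 := u_pos hc
    have h2 := D1_pos (k := k) (z := z) (by linarith [hk.1]) hc
    simp only
    positivity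

lemma Phi_contDiffOn :
    ContDiffOn ℝ 1 (fun w : ℝ × ℝ × ℝ => Phi w.1 w.2.1 w.2.2)
      (Icc (3 / 2) 2 ×ˢ Ioo (-1) 1 ×ˢ univ) := by
  unfold Phi
  exact ContDiffOn.sub (by fun_prop) (ContDiffOn.mul (by fun_prop) Yq_contDiffOn)

lemma u_mul_Phi {k t z : ℝ} (hk : 0 < k) (ht : t ∈ Ioo (-1 : ℝ) 1) :
    (1 - t ^ 2) * Phi k t z * D1 k t z =
      (1 - t ^ 2) * D1 k t z * z ^ 2 - (z - 1) * Num k t z := by
  unfold Phi Yq
  have h1 := (u_pos ht).ne'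
  have h2 := (D1_pos (z := z) hk ht).ne'
  field_simp

lemma Phi_up {k t z : ℝ} (hk : 3 / 2 ≤ k) (ht0 : 0 ≤ t) (ht1 : t < 1) (hz : 2 ≤ z) :
    0 < Phi k t z := by
  have ht : t ∈ Ioo (-1 : ℝ) 1 := ⟨by linarith, ht1⟩
  have hu := u_pos ht
  have hD := Dq_pos (z := z) (by linarith : 0 < k) ht
  have hD1 := D1_pos (z := z) (by linarith : 0 < k) ht
  have h1 : 6 ≤ (2 * k + 1) * k := by nlinarith
  have h2 : 3 * t * z - (2 * k + 1) * k * (z - 1) ≤ 0 := by nlinarith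
  have h3 : 9 / 4 ≤ k ^ 2 := by nlinarith
  have h4 : 0 ≤ k ^ 2 * (z - 1) - t * z := by nlinarith
  have h5 : Num k t z ≤ 0 := by
    unfold Num
    have a1 := mul_nonpos_of_nonpos_of_nonneg h2 hD.le
    have a2 : 0 ≤ (1 - t ^ 2) * z ^ 2 * (k ^ 2 * (z - 1) - t * z) := by positivity
    linarith
  have h6 : Yq k t z ≤ 0 := div_nonpos_of_nonpos_of_nonneg h5 (by positivity)
  unfold Phi
  nlinarith

lemma down_est {k t z a γ : ℝ} (hk : 0 < k) (ht0 : 0 ≤ t) (ht1 : t < 1) (ha : 0 < a)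
    (haz : 1 + a ≤ z) (hγ : 0 < γ) (hγ' : γ ≤ 3 * t * z - (2 * k + 1) * k * (z - 1))
    (hu : 2 * (1 - t ^ 2) * z ^ 2 ≤ a * γ / 4) :
    (1 - t ^ 2) * Phi k t z ≤ -(a * γ / 4) := by
  have ht : t ∈ Ioo (-1 : ℝ) 1 := ⟨by linarith, ht1⟩
  have hu0 := u_pos ht
  have hD1 := D1_pos (z := z) hk ht
  have key := u_mul_Phi (z := z) hk ht
  have hz : 0 < z - 1 := by linarith
  have hz0 : 0 < z := by linarith
  have hDD : D1 k t z / 2 ≤ Dq k t z := by unfold D1 Dq; nlinarith [sq_nonneg (k * (z - 1))]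
  have hD4 : k ^ 2 * (z - 1) ^ 2 ≤ D1 k t z := by
    unfold D1
    have : 0 ≤ 2 * (1 - t ^ 2) * z ^ 2 := by positivity
    linarith
  have h1 : γ * (D1 k t z / 2) ≤ (3 * t * z - (2 * k + 1) * k * (z - 1)) * Dq k t z :=
    mul_le_mul hγ' hDD (by positivity) (by linarith)
  have h2 : (1 - t ^ 2) * z ^ 2 * (k ^ 2 * (z - 1) - t * z) ≤
      (1 - t ^ 2) * z ^ 2 * (k ^ 2 * (z - 1)) :=
    mul_le_mul_of_nonneg_left (by nlinarith [mul_nonneg ht0 hz0.le]) (by positivity)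
  have h3 : γ * (D1 k t z / 2) - (1 - t ^ 2) * z ^ 2 * (k ^ 2 * (z - 1)) ≤ Num k t z := by
    unfold Num; linarith
  have h4 := mul_le_mul_of_nonneg_left h3 hz.le
  have h5 : a * (γ * (D1 k t z / 2)) ≤ (z - 1) * (γ * (D1 k t z / 2)) :=
    mul_le_mul_of_nonneg_right (by linarith) (by positivity)
  have h6 : (1 - t ^ 2) * z ^ 2 * (k ^ 2 * (z - 1) ^ 2) ≤ (1 - t ^ 2) * z ^ 2 * D1 k t z :=
    mul_le_mul_of_nonneg_left hD4 (by positivity)
  have h8 := mul_le_mul_of_nonneg_right hu hD1.le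
  have h9 : (1 - t ^ 2) * Phi k t z * D1 k t z ≤ -(a * γ / 4) * D1 k t z := by
    rw [key]; nlinarith
  exact le_of_mul_le_mul_right h9 hD1

lemma up_est {t z : ℝ} (ht0 : 0 ≤ t) (ht1 : t < 1) (hz : 29 / 20 ≤ z) :
    3 / 100 ≤ (1 - t ^ 2) * Phi 2 t z := by
  have ht : t ∈ Ioo (-1 : ℝ) 1 := ⟨by linarith, ht1⟩
  have hu0 := u_pos ht
  have hD1 := D1_pos (k := 2) (z := z) two_pos ht
  have key := u_mul_Phi (k := 2) (z := z) two_pos ht
  have hDD : D1 2 t z / 2 ≤ Dq 2 t z := by unfold D1 Dq; nlinarith [sq_nonneg (z - 1)]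
  have h0 : 3 / 20 ≤ (2 * 2 + 1) * 2 * (z - 1) - 3 * t * z := by nlinarith
  have h1 : 3 / 20 * (D1 2 t z / 2) ≤ ((2 * 2 + 1) * 2 * (z - 1) - 3 * t * z) * Dq 2 t z :=
    mul_le_mul h0 hDD (by positivity) (by linarith)
  have h2 : 0 ≤ (1 - t ^ 2) * z ^ 2 * (2 ^ 2 * (z - 1) - t * z) :=
    mul_nonneg (by positivity) (by nlinarith)
  have h3 : Num 2 t z ≤ -(3 / 20 * (D1 2 t z / 2)) := by unfold Num; linarith
  have h4 := mul_le_mul_of_nonneg_left h3 (by linarith : 0 ≤ z - 1)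
  have h5 : 0 ≤ (1 - t ^ 2) * D1 2 t z * z ^ 2 := by positivity
  have h9 : 3 / 100 * D1 2 t z ≤ (1 - t ^ 2) * Phi 2 t z * D1 2 t z := by
    rw [key]; nlinarith
  exact le_of_mul_le_mul_right h9 hD1

/-- the barrier -/
noncomputable def bar (t : ℝ) : ℝ := 6 * t / (1 + 6 * t - 3 * t ^ 2)

lemma den_pos {t : ℝ} (ht : t ∈ Ico (0 : ℝ) 1) : 0 < 1 + 6 * t - 3 * t ^ 2 := by
  nlinarith [ht.1, ht.2]

lemma bar_deriv {t : ℝ} (ht : t ∈ Ico (0 : ℝ) 1) :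
    HasDerivAt bar ((6 + 18 * t ^ 2) / (1 + 6 * t - 3 * t ^ 2) ^ 2) t := by
  have h1 := (hasDerivAt_id' t).const_mul 6
  have h2 := (h1.const_add 1).fun_sub (((hasDerivAt_id' t).fun_pow 2).const_mul 3)
  refine (h1.fun_div h2 (den_pos ht).ne').congr_deriv ?_
  congr 1
  norm_num
  ring

lemma bar_mem {t : ℝ} (ht : t ∈ Ico (0 : ℝ) 1) : 0 ≤ bar t ∧ bar t ≤ 3 / 2 := by
  have h := den_pos ht
  unfold bar
  refine ⟨div_nonneg (by linarith [ht.1]) h.le, ?_⟩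
  rw [div_le_iff₀ h]
  nlinarith [ht.1, ht.2]

lemma bar_id {k t : ℝ} (hk : 0 < k) (ht : t ∈ Ico (0 : ℝ) 1) :
    (Phi k t (bar t) - (6 + 18 * t ^ 2) / (1 + 6 * t - 3 * t ^ 2) ^ 2) *
      ((1 - t ^ 2) * D1 k t (bar t)) =
    (bar t - 1) ^ 2 * 9 / (1 + 6 * t - 3 * t ^ 2) ^ 2 *
      (((2 * k + 1) * k - 8) * (k ^ 2 * (t ^ 2 - 1 / 3) ^ 2 + 4 * t ^ 2 * (1 - t ^ 2)) -
        2 / 3 * k ^ 2 * (t ^ 2 - 1 / 3) - 4 * (4 - k ^ 2) * t ^ 2 * (1 - t ^ 2)) := by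
  have htI : t ∈ Ioo (-1 : ℝ) 1 := ⟨by linarith [ht.1], ht.2⟩
  have key := u_mul_Phi (z := bar t) hk htI
  have h := (den_pos ht).ne'
  rw [sub_mul, show Phi k t (bar t) * ((1 - t ^ 2) * D1 k t (bar t)) =
    (1 - t ^ 2) * Phi k t (bar t) * D1 k t (bar t) by ring, key]
  obtain ⟨E, hE⟩ : ∃ E : ℝ, E = 1 + 6 * t - 3 * t ^ 2 := ⟨_, rfl⟩
  have hb : bar t = 6 * t / E := by rw [hE]; rfl
  rw [← hE] at h ⊢
  rw [hb]
  unfold Num Dq D1
  field_simp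
  subst hE
  ring

lemma bar_sub {t : ℝ} (ht : t ∈ Ico (0 : ℝ) 1) :
    (6 + 18 * t ^ 2) / (1 + 6 * t - 3 * t ^ 2) ^ 2 ≤ Phi 2 t (cl (bar t)) := by
  have hm := bar_mem ht
  rw [cl_eq (by linarith [hm.1]) (by linarith [hm.2])]
  have htI : t ∈ Ioo (-1 : ℝ) 1 := ⟨by linarith [ht.1], ht.2⟩
  have h := bar_id (k := 2) two_pos ht
  have hp : 0 < (1 - t ^ 2) * D1 2 t (bar t) := mul_pos (u_pos htI) (D1_pos two_pos htI)
  have e : ((2 * 2 + 1) * 2 - 8) * (2 ^ 2 * (t ^ 2 - 1 / 3) ^ 2 + 4 * t ^ 2 * (1 - t ^ 2)) -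
      2 / 3 * 2 ^ 2 * (t ^ 2 - 1 / 3) - 4 * (4 - 2 ^ 2) * t ^ 2 * (1 - t ^ 2) = (16 / 9 : ℝ) := by
    ring
  rw [e] at h
  have h2 : 0 ≤ (Phi 2 t (bar t) - (6 + 18 * t ^ 2) / (1 + 6 * t - 3 * t ^ 2) ^ 2) *
      ((1 - t ^ 2) * D1 2 t (bar t)) := by rw [h]; positivity
  have := nonneg_of_mul_nonneg_left h2 hp
  linarith

lemma bar_sup {t : ℝ} (ht : t ∈ Ico (0 : ℝ) 1) :
    Phi (3 / 2) t (cl (bar t)) ≤ (6 + 18 * t ^ 2) / (1 + 6 * t - 3 * t ^ 2) ^ 2 := by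
  have hm := bar_mem ht
  rw [cl_eq (by linarith [hm.1]) (by linarith [hm.2])]
  have htI : t ∈ Ioo (-1 : ℝ) 1 := ⟨by linarith [ht.1], ht.2⟩
  have h := bar_id (k := 3 / 2) (by norm_num) ht
  have hp : 0 < (1 - t ^ 2) * D1 (3 / 2) t (bar t) :=
    mul_pos (u_pos htI) (D1_pos (by norm_num) htI)
  have e : ((2 * (3 / 2) + 1) * (3 / 2) - 8) *
      ((3 / 2) ^ 2 * (t ^ 2 - 1 / 3) ^ 2 + 4 * t ^ 2 * (1 - t ^ 2)) -
      2 / 3 * (3 / 2) ^ 2 * (t ^ 2 - 1 / 3) - 4 * (4 - (3 / 2) ^ 2) * t ^ 2 * (1 - t ^ 2) =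
      -(t ^ 2 * (27 / 2 - 21 / 2 * t ^ 2)) := by
    ring
  rw [e] at h
  have h1 : 0 ≤ t ^ 2 * (27 / 2 - 21 / 2 * t ^ 2) :=
    mul_nonneg (sq_nonneg t) (by nlinarith [ht.1, ht.2])
  have h2 : (Phi (3 / 2) t (bar t) - (6 + 18 * t ^ 2) / (1 + 6 * t - 3 * t ^ 2) ^ 2) *
      ((1 - t ^ 2) * D1 (3 / 2) t (bar t)) ≤ 0 := by
    rw [h]
    exact mul_nonpos_of_nonneg_of_nonpos (by positivity) (by linarith)
  by_contra hc
  push Not at hc
  nlinarith [mul_pos (sub_pos.2 hc) hp]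

theorem shoot :
    ∃ k : ℝ, 3 / 2 ≤ k ∧ k < 2 ∧ ∃ z : ℝ → ℝ, z 0 = 0 ∧
      ContinuousOn z (Ioo (-1) 1) ∧
      (∀ c ∈ Ico (0 : ℝ) 1, HasDerivAt z (Phi k c (z c)) c) ∧
      (∀ c ∈ Ico (0 : ℝ) 1, 0 ≤ z c ∧ z c ≤ 2) ∧
      (∀ c ∈ Ico (999 / 1000 : ℝ) 1, 9 / 8 ≤ z c) := by
  have hk2 : (3 / 2 : ℝ) ≤ 2 := by norm_num
  obtain ⟨Z, hZ, hZc⟩ := exists_family' (Φ := Phi) Phi_contDiffOn
  have hI : ∀ c ∈ Ico (0 : ℝ) 1, c ∈ Ioo (-1 : ℝ) 1 := fun c hc => ⟨by linarith [hc.1], hc.2⟩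
  have : PreconnectedSpace (Icc (3 / 2 : ℝ) 2) := Subtype.preconnectedSpace isPreconnected_Icc
  have hcont : ∀ c ∈ Ico (0 : ℝ) 1, Continuous (fun k : Icc (3 / 2 : ℝ) 2 => Z k c) :=
    fun c hc => (hZc c hc).domRestrict
  set U : Set (Icc (3 / 2 : ℝ) 2) := {k | ∃ c ∈ Ico (0 : ℝ) 1, 2 < Z k c} with hU
  set L : Set (Icc (3 / 2 : ℝ) 2) := {k | ∃ c ∈ Ico (999 / 1000 : ℝ) 1, Z k c < 9 / 8} with hL
  have hUo : IsOpen U := by
    have : U = ⋃ c ∈ Ico (0 : ℝ) 1, {k : Icc (3 / 2 : ℝ) 2 | 2 < Z k c} := by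
      ext k; simp [hU]
    rw [this]
    exact isOpen_biUnion fun c hc => isOpen_lt continuous_const (hcont c hc)
  have hLo : IsOpen L := by
    have : L = ⋃ c ∈ Ico (999 / 1000 : ℝ) 1, {k : Icc (3 / 2 : ℝ) 2 | Z k c < 9 / 8} := by
      ext k; simp [hL]
    rw [this]
    exact isOpen_biUnion fun c hc =>
      isOpen_lt (hcont c ⟨by linarith [hc.1], hc.2⟩) continuous_const
  have hUk : (⟨2, hk2, le_rfl⟩ : Icc (3 / 2 : ℝ) 2) ∈ U := by
    by_contra hcon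
    simp only [hU, mem_ofPred_eq, not_exists, not_and, not_lt] at hcon
    obtain ⟨h0, hz⟩ := hZ 2 ⟨hk2, le_rfl⟩
    have hle := comp_le Phi_contDiffOn ⟨hk2, le_rfl⟩ (f := bar) (g := Z 2)
      (fun c hc => bar_deriv hc) (fun c hc => hz c (hI c hc)) (by simp [bar, h0])
      (fun c hc => bar_sub hc) (fun c _ => le_rfl)
    refine blow_up (f := Z 2) (f' := fun c => Phi 2 c (cl (Z 2 c))) (c1 := 99 / 100)
      (δ := 3 / 100) (B := 2) (by norm_num) (by norm_num) (by norm_num)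
      (fun c hc => hz c ⟨by linarith [hc.1], hc.2⟩) (fun c hc => ?_)
      (fun c hc => hcon c ⟨by linarith [hc.1], hc.2⟩)
    have hc' : c ∈ Ico (0 : ℝ) 1 := ⟨by linarith [hc.1], hc.2⟩
    have h1 := hle c hc'
    have h2 : 29 / 20 ≤ bar c := by
      unfold bar
      rw [le_div_iff₀ (den_pos hc')]
      nlinarith [hc.1]
    have h3 := hcon c hc'
    rw [cl_eq (by linarith) (by linarith)]
    exact up_est hc'.1 hc.2 (by linarith)
  have hLk : (⟨3 / 2, le_rfl, hk2⟩ : Icc (3 / 2 : ℝ) 2) ∈ L := by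
    by_contra hcon
    simp only [hL, mem_ofPred_eq, not_exists, not_and, not_lt] at hcon
    obtain ⟨h0, hz⟩ := hZ (3 / 2) ⟨le_rfl, hk2⟩
    have hle := comp_le Phi_contDiffOn ⟨le_rfl, hk2⟩ (g := bar) (f := Z (3 / 2))
      (fun c hc => hz c (hI c hc)) (fun c hc => bar_deriv hc) (by simp [bar, h0])
      (fun c _ => le_rfl) (fun c hc => bar_sup hc)
    refine blow_up (f := fun c => - Z (3 / 2) c) (f' := fun c => - Phi (3 / 2) c (cl (Z (3 / 2) c)))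
      (c1 := 999 / 1000) (δ := 1 / 8 * 1 / 4) (B := 0) (by norm_num) (by norm_num) (by norm_num)
      (fun c hc => (hz c ⟨by linarith [hc.1], hc.2⟩).fun_neg) (fun c hc => ?_)
      (fun c hc => by linarith [hcon c hc])
    have hc' : c ∈ Ico (0 : ℝ) 1 := ⟨by linarith [hc.1], hc.2⟩
    have h1 := (hle c hc').trans (bar_mem hc').2
    have h3 := hcon c hc
    rw [cl_eq (by linarith) (by linarith)]
    have hu : 1 - c ^ 2 ≤ 2 / 1000 := by nlinarith [hc.1, hc.2]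
    have hu0 := u_pos (hI c hc')
    have := down_est (k := 3 / 2) (t := c) (z := Z (3 / 2) c) (a := 1 / 8) (γ := 1) (by norm_num)
      hc'.1 hc.2 (by norm_num) (by linarith) one_pos (by nlinarith [hc.1])
      (by
        have : Z (3 / 2) c ^ 2 ≤ 9 / 4 := by nlinarith
        nlinarith)
    linarith
  have hex : ∃ k : Icc (3 / 2 : ℝ) 2, k ∉ U ∧ k ∉ L := by
    by_contra hcon
    push Not at hcon
    obtain ⟨k, -, ⟨c1, hc1, h1⟩, ⟨c2, hc2, h2⟩⟩ := isPreconnected_univ U L hUo hLo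
      (fun k _ => by
        by_cases h : k ∈ U
        · exact Or.inl h
        · exact Or.inr (hcon k h)) ⟨_, mem_univ _, hUk⟩ ⟨_, mem_univ _, hLk⟩
    obtain ⟨-, hz⟩ := hZ k k.2
    have h3 : Z k c1 ≤ Z k (max c1 c2) := by
      refine fence (f := fun _ => Z k c1) (f' := fun _ => 0)
        (B' := fun c => Phi k c (cl (Z k c))) (a := c1) (fun c _ => hasDerivAt_const c _)
        (fun c hc => hz c ⟨by linarith [hc.1, hc1.1], hc.2⟩) le_rfl ?_ _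
        ⟨le_max_left _ _, max_lt hc1.2 hc2.2⟩
      intro t ht h'
      exact Phi_up k.2.1 (by linarith [ht.1, hc1.1]) ht.2 (cl_ge_two (by linarith))
    have h4 : Z k (max c1 c2) ≤ 9 / 8 := by
      refine fence (B := fun _ => 9 / 8) (B' := fun _ => 0)
        (f' := fun c => Phi k c (cl (Z k c))) (a := c2)
        (fun c hc => hz c ⟨by linarith [hc.1, hc2.1], hc.2⟩) (fun c _ => hasDerivAt_const c _)
        h2.le ?_ _ ⟨le_max_right _ _, max_lt hc1.2 hc2.2⟩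
      intro t ht h'
      rw [h', cl_eq (by norm_num) (by norm_num)]
      have ht1 : 999 / 1000 ≤ t := le_trans hc2.1 ht.1
      have hu : 0 < 1 - t ^ 2 := by nlinarith [ht.2]
      have hk1 := k.2.1
      have hk3 := k.2.2
      have hlk : (2 * (k : ℝ) + 1) * k ≤ 10 := by nlinarith
      have := down_est (k := k) (t := t) (z := 9 / 8) (a := 1 / 8) (γ := 1) (by linarith)
        (by linarith) ht.2 (by norm_num) (by norm_num) one_pos (by nlinarith)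
        (by nlinarith [ht.2])
      by_contra hh
      push Not at hh
      nlinarith [mul_nonneg hu.le hh]
    linarith
  obtain ⟨k, hkU, hkL⟩ := hex
  obtain ⟨h0, hd⟩ := hZ k k.2
  have hlt : (k : ℝ) < 2 := by
    refine lt_of_le_of_ne k.2.2 fun h => hkU ?_
    have : k = ⟨2, hk2, le_rfl⟩ := Subtype.ext h
    rw [this]; exact hUk
  simp only [hU, hL, mem_ofPred_eq, not_exists, not_and, not_lt] at hkU hkL
  have hnn : ∀ c ∈ Ico (0 : ℝ) 1, 0 ≤ Z k c := by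
    refine fence (f := fun _ => 0) (f' := fun _ => 0) (B' := fun c => Phi k c (cl (Z k c)))
      (fun c _ => hasDerivAt_const c 0) (fun c hc => hd c (hI c hc)) h0.ge ?_
    intro c hc h
    rw [← h, cl_eq (by norm_num) (by norm_num)]
    have hk0 : (0 : ℝ) < k := by linarith [k.2.1]
    have hu := u_pos (hI c hc)
    have : Phi k c 0 = (2 * k + 1) * k / (1 - c ^ 2) := by
      unfold Phi Yq Num Dq D1
      field_simp
      ring
    rw [this]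
    positivity
  refine ⟨k, k.2.1, hlt, Z k, h0, fun c hc => (hd c hc).continuousAt.continuousWithinAt,
    fun c hc => ?_, fun c hc => ⟨hnn c hc, hkU c hc⟩, hkL⟩
  have h1 := hd c (hI c hc)
  rwa [cl_eq (by linarith [hnn c hc]) (by linarith [hkU c hc])] at h1

end Pool.Agent.H27Z.AM
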