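import Mathlib
import Pool.Agent.H27Z.AM.Shoot

set_option autoImplicit false

namespace Pool.Agent.H27Z.AM

open Set Filter Topology Pool.Agent.H27Z.PH

theorem half :
    ∃ k : ℝ, 3 / 2 ≤ k ∧ k < 2 ∧ ∃ (g g1 g2 : ℝ → ℝ) (C : ℝ), g 0 = -1 ∧ g1 0 = 0 ∧
      ContinuousOn g2 (Ico 0 1) ∧
      (∀ c ∈ Ico (0 : ℝ) 1, HasDerivAt g (g1 c) c ∧ HasDerivAt g1 (g2 c) c ∧
        0 < k ^ 2 * g c ^ 2 + (1 - c ^ 2) * g1 c ^ 2 ∧ 0 ≤ g1 c ∧ g1 c ≤ C ∧ g c ≤ C ∧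
        (1 - c ^ 2) * g2 c * (k ^ 2 * g c ^ 2 + 2 * (1 - c ^ 2) * g1 c ^ 2) =
          (3 * c * g1 c - (2 * k + 1) * k * g c) * (k ^ 2 * g c ^ 2 + (1 - c ^ 2) * g1 c ^ 2) -
            (1 - c ^ 2) * g1 c ^ 2 * (k ^ 2 * g c - c * g1 c)) ∧
      (∀ c ∈ Ico (999 / 1000 : ℝ) 1, 0 < g c ∧ 0 < g1 c) := by
  obtain ⟨k, hk1, hk2, z, hz0, hzc, hz, hzb, hzl⟩ := shoot
  refine ⟨k, hk1, hk2, ?_⟩
  have hk0 : 0 < k := by linarith
  have hI : ∀ c ∈ Ico (0 : ℝ) 1, c ∈ Ioo (-1 : ℝ) 1 := fun c hc => ⟨by linarith [hc.1], hc.2⟩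
  obtain ⟨y, hy⟩ : ∃ y : ℝ → ℝ, y = fun c => Yq k c (z c) := ⟨_, rfl⟩
  have hyc : ContinuousOn y (Ioo (-1) 1) := by
    rw [hy]
    have h1 := Yq_contDiffOn.continuousOn
    have h2 : ContinuousOn (fun c : ℝ => ((k, c, z c) : ℝ × ℝ × ℝ)) (Ioo (-1) 1) :=
      continuousOn_const.prodMk (continuousOn_id.prodMk hzc)
    have h3 := h1.comp h2 (fun c hc => ⟨⟨hk1, hk2.le⟩, hc, mem_univ _⟩)
    exact h3.congr fun c _ => rfl
  have hyz : ContinuousOn (fun c => y c - z c) (Ioo (-1) 1) := hyc.sub hzc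
  have hInt : ∀ c ∈ Ioo (-1 : ℝ) 1,
      HasDerivAt (fun c => ∫ t in (0 : ℝ)..c, (y t - z t)) (y c - z c) c := by
    intro c hc
    refine intervalIntegral.integral_hasDerivAt_right ?_ ?_
      (hyz.continuousAt (Ioo_mem_nhds hc.1 hc.2))
    · refine (hyz.mono ?_).intervalIntegrable
      exact ordConnected_Ioo.uIcc_subset ⟨by norm_num, by norm_num⟩ hc
    · exact hyz.stronglyMeasurableAtFilter isOpen_Ioo c hc
  obtain ⟨G, hG⟩ : ∃ G : ℝ → ℝ, G = fun c => Real.exp (∫ t in (0 : ℝ)..c, (y t - z t)) :=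
    ⟨_, rfl⟩
  have hGpos : ∀ c, 0 < G c := fun c => by rw [hG]; exact Real.exp_pos _
  have hG0 : G 0 = 1 := by rw [hG]; simp
  have hGd : ∀ c ∈ Ioo (-1 : ℝ) 1, HasDerivAt G (G c * (y c - z c)) c := by
    intro c hc
    rw [hG]; exact (hInt c hc).exp
  have hGc : ContinuousOn G (Ioo (-1) 1) := fun c hc => (hGd c hc).continuousAt.continuousWithinAt
  have hPhi : ∀ c, Phi k c (z c) = z c ^ 2 - (z c - 1) * y c := fun c => by rw [hy]; rfl
  have hgd : ∀ c ∈ Ico (0 : ℝ) 1, HasDerivAt (fun c => G c * (z c - 1)) (G c * z c) c := by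
    intro c hc
    refine ((hGd c (hI c hc)).fun_mul ((hz c hc).sub_const 1)).congr_deriv ?_
    rw [hPhi]; ring
  have hg1d : ∀ c ∈ Ico (0 : ℝ) 1, HasDerivAt (fun c => G c * z c) (G c * y c) c := by
    intro c hc
    refine ((hGd c (hI c hc)).fun_mul (hz c hc)).congr_deriv ?_
    rw [hPhi]; ring
  -- bounds
  have hsub : Icc (0 : ℝ) (999 / 1000) ⊆ Ioo (-1) 1 :=
    fun c hc => ⟨by linarith [hc.1], by linarith [hc.2]⟩
  obtain ⟨C1, hC1⟩ := isCompact_Icc.exists_bound_of_continuousOn ((hGc.mul hzc).mono hsub)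
  have hC10 : 0 ≤ C1 := le_trans (norm_nonneg _) (hC1 0 ⟨le_rfl, by norm_num⟩)
  have hlin : ∀ c ∈ Ico (0 : ℝ) 1, ‖G c * z c‖ ≤ 9 * ‖G c * (z c - 1)‖ + C1 := by
    intro c hc
    rcases le_or_gt (999 / 1000) c with h | h
    · have h1 := hzl c ⟨h, hc.2⟩
      have h2 := hGpos c
      rw [Real.norm_eq_abs, Real.norm_eq_abs, abs_of_pos (by positivity),
        abs_of_pos (mul_pos h2 (by linarith))]
      nlinarith
    · have := hC1 c ⟨hc.1, h.le⟩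
      have h3 := norm_nonneg (G c * (z c - 1))
      simp only [Pi.mul_apply] at this
      linarith
  obtain ⟨B, hB⟩ : ∃ B : ℝ, B = gronwallBound 1 9 C1 1 := ⟨_, rfl⟩
  have hgB : ∀ c ∈ Ico (0 : ℝ) 1, ‖G c * (z c - 1)‖ ≤ B := by
    intro c hc
    have hs : ∀ t ∈ Icc (0 : ℝ) c, t ∈ Ico (0 : ℝ) 1 := fun t ht => ⟨ht.1, lt_of_le_of_lt ht.2 hc.2⟩
    have h := norm_le_gronwallBound_of_norm_deriv_right_le (f := fun c => G c * (z c - 1))
      (f' := fun c => G c * z c) (δ := 1) (K := 9) (ε := C1) (a := 0) (b := c)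
      (fun t ht => (hgd t (hs t ht)).continuousAt.continuousWithinAt)
      (fun t ht => (hgd t (hs t (Ico_subset_Icc_self ht))).hasDerivWithinAt)
      (by simp [hG0, hz0]) (fun t ht => hlin t (hs t (Ico_subset_Icc_self ht))) c ⟨hc.1, le_rfl⟩
    rw [hB]
    exact h.trans (gronwallBound_mono one_pos.le hC10 (by norm_num) (by linarith [hc.2]))
  have hB0 : 0 ≤ B := le_trans (norm_nonneg _) (hgB 0 ⟨le_rfl, one_pos⟩)
  refine ⟨fun c => G c * (z c - 1), fun c => G c * z c, fun c => G c * y c, 9 * B + C1,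
    by simp [hG0, hz0], by simp [hz0], (hGc.mul hyc).mono hI, fun c hc => ?_, fun c hc => ?_⟩
  · have hD := Dq_pos (z := z c) hk0 (hI c hc)
    have hD1 := D1_pos (z := z c) hk0 (hI c hc)
    have hu := u_pos (hI c hc)
    have h2 := hGpos c
    refine ⟨hgd c hc, hg1d c hc, ?_, mul_nonneg h2.le (hzb c hc).1, ?_, ?_, ?_⟩
    · have : k ^ 2 * (G c * (z c - 1)) ^ 2 + (1 - c ^ 2) * (G c * z c) ^ 2 =
          G c ^ 2 * Dq k c (z c) := by unfold Dq; ring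
      rw [this]; positivity
    · have h3 := hlin c hc
      have h4 := hgB c hc
      have h5 := le_abs_self (G c * z c)
      rw [← Real.norm_eq_abs] at h5
      linarith
    · have h4 := hgB c hc
      have h5 := le_abs_self (G c * (z c - 1))
      rw [← Real.norm_eq_abs] at h5
      linarith
    · have hyN : y c * ((1 - c ^ 2) * D1 k c (z c)) = Num k c (z c) := by
        rw [hy]; unfold Yq; field_simp
      unfold Num D1 Dq at hyN
      linear_combination G c ^ 3 * hyN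
  · have h1 := hzl c hc
    have h2 := hGpos c
    exact ⟨mul_pos h2 (by linarith), mul_pos h2 (by linarith)⟩

theorem energy {k C M : ℝ} (hk : 0 < k) {g g1 g2 : ℝ → ℝ} (h0 : g 0 = -1) (h10 : g1 0 = 0)
    (H : ∀ c ∈ Ico (0 : ℝ) 1, HasDerivAt g (g1 c) c ∧ HasDerivAt g1 (g2 c) c ∧
        0 < k ^ 2 * g c ^ 2 + (1 - c ^ 2) * g1 c ^ 2 ∧ 0 ≤ g1 c ∧ g1 c ≤ C ∧ g c ≤ C ∧
        (1 - c ^ 2) * g2 c * (k ^ 2 * g c ^ 2 + 2 * (1 - c ^ 2) * g1 c ^ 2) =
          (3 * c * g1 c - (2 * k + 1) * k * g c) * (k ^ 2 * g c ^ 2 + (1 - c ^ 2) * g1 c ^ 2) -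
            (1 - c ^ 2) * g1 c ^ 2 * (k ^ 2 * g c - c * g1 c))
    (hp : ∀ c ∈ Ico (999 / 1000 : ℝ) 1, 0 < g c ∧ 0 < g1 c)
    (hM : Tendsto g (𝓝[<] 1) (𝓝 M)) (hM0 : 0 < M) : 1 < M := by
  obtain ⟨A, hA⟩ : ∃ A : ℝ → ℝ, A = fun c => k ^ 2 * g c ^ 2 + (1 - c ^ 2) * g1 c ^ 2 := ⟨_, rfl⟩
  obtain ⟨B, hB⟩ : ∃ B : ℝ → ℝ,
    B = fun c => (2 * k + 1) * (k ^ 2 * g c ^ 2) + 2 * k * ((1 - c ^ 2) * g1 c ^ 2) := ⟨_, rfl⟩
  have hApos : ∀ c ∈ Ico (0 : ℝ) 1, 0 < A c := fun c hc => by rw [hA]; exact (H c hc).2.2.1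
  have hBpos : ∀ c ∈ Ico (0 : ℝ) 1, 0 < B c := by
    intro c hc
    have h1 := hApos c hc
    rw [hA] at h1
    rw [hB]
    simp only at h1 ⊢
    nlinarith [sq_nonneg (k * g c), mul_pos hk h1]
  obtain ⟨E, hE⟩ : ∃ E : ℝ → ℝ,
    E = fun c => -(k / 2) * Real.log (A c) + (k + 1) / 2 * Real.log (B c) := ⟨_, rfl⟩
  have hEd : ∀ c ∈ Ico (0 : ℝ) 1, HasDerivAt E (2 * k * c * g1 c ^ 2 / B c) c := by
    intro c hc
    obtain ⟨d1, d2, -, -, -, -, ode⟩ := H c hc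
    have a1 := (d1.fun_pow 2).const_mul (k ^ 2)
    have a2 := (((hasDerivAt_id' c).fun_pow 2).const_sub 1).fun_mul (d2.fun_pow 2)
    have a3 : HasDerivAt A _ c := hA ▸ a1.fun_add a2
    have a4 : HasDerivAt B _ c := hB ▸ (a1.const_mul (2 * k + 1)).fun_add (a2.const_mul (2 * k))
    have hA0 := (hApos c hc).ne'
    have hB0 := (hBpos c hc).ne'
    rw [hE]
    refine (((a3.log hA0).const_mul (-(k / 2))).fun_add
      ((a4.log hB0).const_mul ((k + 1) / 2))).congr_deriv ?_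
    have eA : A c = k ^ 2 * g c ^ 2 + (1 - c ^ 2) * g1 c ^ 2 := by rw [hA]
    have eB : B c = (2 * k + 1) * (k ^ 2 * g c ^ 2) + 2 * k * ((1 - c ^ 2) * g1 c ^ 2) := by
      rw [hB]
    field_simp
    rw [eA, eB]
    norm_num
    linear_combination (2 * g1 c) * ode
  have hEc : ContinuousOn E (Ico 0 1) := fun c hc => (hEd c hc).continuousAt.continuousWithinAt
  have hmono : MonotoneOn E (Ico 0 1) := by
    refine monotoneOn_of_deriv_nonneg (convex_Ico _ _) hEc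
      (fun c hc => (hEd c (interior_subset hc)).differentiableAt.differentiableWithinAt) ?_
    intro c hc
    have hc' := interior_subset hc
    rw [(hEd c hc').deriv]
    have := hBpos c hc'
    have := hc'.1
    positivity
  have hsub : Ico (999 / 1000 : ℝ) 1 ⊆ Ico 0 1 := fun c hc => ⟨by linarith [hc.1], hc.2⟩
  have hstrict : StrictMonoOn E (Ico (999 / 1000) 1) := by
    refine strictMonoOn_of_deriv_pos (convex_Ico _ _) (hEc.mono hsub) ?_
    intro c hc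
    have hc' := interior_subset hc
    rw [(hEd c (hsub hc')).deriv]
    have := hBpos c (hsub hc')
    have h2 : 0 < c := by linarith [hc'.1]
    have := (hp c hc').2
    positivity
  have h1 : E 0 < E (9999 / 10000) :=
    lt_of_le_of_lt (hmono ⟨le_rfl, one_pos⟩ ⟨by norm_num, by norm_num⟩ (by norm_num))
      (hstrict (a := 999 / 1000) ⟨le_rfl, by norm_num⟩ ⟨by norm_num, by norm_num⟩ (by norm_num))
  have hW : Tendsto (fun c => (1 - c ^ 2) * g1 c ^ 2) (𝓝[<] 1) (𝓝 0) := by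
    have hb : Tendsto (fun c : ℝ => (1 - c ^ 2) * C ^ 2) (𝓝[<] 1) (𝓝 0) := by
      have : Continuous (fun c : ℝ => (1 - c ^ 2) * C ^ 2) := by fun_prop
      simpa using (this.tendsto 1).mono_left nhdsWithin_le_nhds
    refine squeeze_zero' ?_ ?_ hb
    · filter_upwards [Ico_mem_nhdsLT one_pos] with c hc
      have := u_pos (c := c) ⟨by linarith [hc.1], hc.2⟩
      positivity
    · filter_upwards [Ico_mem_nhdsLT one_pos] with c hc
      have := u_pos (c := c) ⟨by linarith [hc.1], hc.2⟩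
      obtain ⟨-, -, -, b1, b2, -⟩ := H c hc
      gcongr
  have hX : Tendsto (fun c => k ^ 2 * g c ^ 2) (𝓝[<] 1) (𝓝 (k ^ 2 * M ^ 2)) :=
    (hM.pow 2).const_mul _
  have hAl : Tendsto A (𝓝[<] 1) (𝓝 (k ^ 2 * M ^ 2 + 0)) := hA ▸ hX.add hW
  have hBl : Tendsto B (𝓝[<] 1) (𝓝 ((2 * k + 1) * (k ^ 2 * M ^ 2) + 2 * k * 0)) :=
    hB ▸ (hX.const_mul _).add (hW.const_mul _)
  have hEl : Tendsto E (𝓝[<] 1) (𝓝 (-(k / 2) * Real.log (k ^ 2 * M ^ 2 + 0) +
      (k + 1) / 2 * Real.log ((2 * k + 1) * (k ^ 2 * M ^ 2) + 2 * k * 0))) :=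
    hE ▸ ((hAl.log (by positivity)).const_mul _).add ((hBl.log (by positivity)).const_mul _)
  have h2 := ge_of_tendsto hEl (b := E (9999 / 10000)) (by
    filter_upwards [Ico_mem_nhdsLT (show (9999 / 10000 : ℝ) < 1 by norm_num)] with c hc
    exact hmono ⟨by norm_num, by norm_num⟩ ⟨by linarith [hc.1], hc.2⟩ hc.1)
  have h3 : E 0 = -(k / 2) * Real.log (k ^ 2) +
      (k + 1) / 2 * Real.log ((2 * k + 1) * k ^ 2) := by
    rw [hE, hA, hB]; simp [h0, h10]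
  rw [add_zero, mul_zero, add_zero, ← mul_assoc, Real.log_mul (by positivity) (by positivity),
    Real.log_mul (x := (2 * k + 1) * k ^ 2) (by positivity) (by positivity)] at h2
  have h4 : 0 < Real.log (M ^ 2) := by nlinarith
  have h5 := (Real.log_pos_iff (by positivity)).1 h4
  nlinarith

end Pool.Agent.H27Z.AM
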