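import Mathlib
import Pool.Agent.H27Z.AM.Half

set_option autoImplicit false

namespace Pool.Agent.H27Z.AM

open Set Filter Topology Pool.Agent.H27Z.PH

/-- odd extension -/
noncomputable def od (f : ℝ → ℝ) (t : ℝ) : ℝ := f (max t 0) - f (max (-t) 0)

lemma od_pos {f : ℝ → ℝ} (h0 : f 0 = 0) {t : ℝ} (ht : 0 ≤ t) : od f t = f t := by
  unfold od
  rw [max_eq_left ht, max_eq_right (by linarith), h0, sub_zero]

lemma od_neg {f : ℝ → ℝ} (h0 : f 0 = 0) {t : ℝ} (ht : t ≤ 0) : od f t = - f (-t) := by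
  unfold od
  rw [max_eq_right ht, max_eq_left (by linarith), h0, zero_sub]

lemma abs_mem {c : ℝ} (hc : c ∈ Ioo (-1 : ℝ) 1) : |c| ∈ Ico (0 : ℝ) 1 :=
  ⟨abs_nonneg c, abs_lt.2 hc⟩

lemma glue {F f h : ℝ → ℝ} {a : ℝ} (hf : HasDerivAt f a 0) (hh : HasDerivAt h a 0)
    (h1 : ∀ t, 0 ≤ t → F t = f t) (h2 : ∀ t, t ≤ 0 → F t = h t) : HasDerivAt F a 0 := by
  have a1 : HasDerivWithinAt F a (Ici 0) 0 :=
    hf.hasDerivWithinAt.congr (fun t ht => h1 t ht) (h1 0 le_rfl)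
  have a2 : HasDerivWithinAt F a (Iic 0) 0 :=
    hh.hasDerivWithinAt.congr (fun t ht => h2 t ht) (h2 0 le_rfl)
  have := a2.union a1
  rwa [Iic_union_Ici, hasDerivWithinAt_univ] at this

lemma ev_deriv {f f' : ℝ → ℝ} (hf : ∀ c ∈ Ico (0 : ℝ) 1, HasDerivAt f (f' c) c) (h0 : f' 0 = 0)
    {c : ℝ} (hc : c ∈ Ioo (-1 : ℝ) 1) : HasDerivAt (fun t => f |t|) (od f' c) c := by
  have hn : ∀ c ∈ Ioc (-1 : ℝ) 0, HasDerivAt (fun t => f (-t)) (-f' (-c)) c := by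
    intro c hc
    have := (hf (-c) ⟨by linarith [hc.2], by linarith [hc.1]⟩).comp c (hasDerivAt_neg c)
    rw [mul_neg, mul_one] at this
    exact this
  rcases lt_trichotomy c 0 with h | h | h
  · rw [od_neg h0 h.le]
    refine (hn c ⟨hc.1, h.le⟩).congr_of_eventuallyEq ?_
    filter_upwards [eventually_lt_nhds h] with t ht
    rw [abs_of_neg ht]
  · subst h
    rw [od_pos h0 le_rfl]
    refine glue (hf 0 ⟨le_rfl, one_pos⟩) (h := fun t => f (-t)) ?_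
      (fun t ht => by rw [abs_of_nonneg ht]) (fun t ht => by rw [abs_of_nonpos ht])
    have := hn 0 ⟨by norm_num, le_rfl⟩
    rw [neg_zero, h0, neg_zero] at this
    rw [h0]
    exact this
  · rw [od_pos h0 h.le]
    refine (hf c ⟨h.le, hc.2⟩).congr_of_eventuallyEq ?_
    filter_upwards [eventually_gt_nhds h] with t ht
    rw [abs_of_pos ht]

lemma od_deriv {f f' : ℝ → ℝ} (hf : ∀ c ∈ Ico (0 : ℝ) 1, HasDerivAt f (f' c) c) (h0 : f 0 = 0)
    {c : ℝ} (hc : c ∈ Ioo (-1 : ℝ) 1) : HasDerivAt (od f) (f' |c|) c := by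
  have hn : ∀ c ∈ Ioc (-1 : ℝ) 0, HasDerivAt (fun t => - f (-t)) (f' (-c)) c := by
    intro c hc
    have := ((hf (-c) ⟨by linarith [hc.2], by linarith [hc.1]⟩).comp c (hasDerivAt_neg c)).fun_neg
    rw [mul_neg, mul_one, neg_neg] at this
    exact this
  rcases lt_trichotomy c 0 with h | h | h
  · rw [abs_of_neg h]
    refine (hn c ⟨hc.1, h.le⟩).congr_of_eventuallyEq ?_
    filter_upwards [eventually_lt_nhds h] with t ht
    rw [od_neg h0 ht.le]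
  · subst h
    rw [abs_zero]
    refine glue (hf 0 ⟨le_rfl, one_pos⟩) (h := fun t => - f (-t)) ?_
      (fun t ht => od_pos h0 ht) (fun t ht => od_neg h0 ht)
    have := hn 0 ⟨by norm_num, le_rfl⟩
    rw [neg_zero] at this
    exact this
  · rw [abs_of_pos h]
    refine (hf c ⟨h.le, hc.2⟩).congr_of_eventuallyEq ?_
    filter_upwards [eventually_gt_nhds h] with t ht
    rw [od_pos h0 ht.le]

lemma ev_cont {f : ℝ → ℝ} (hf : ContinuousOn f (Ico 0 1)) :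
    ContinuousOn (fun t => f |t|) (Ioo (-1) 1) :=
  hf.comp continuous_abs.continuousOn fun _ hc => abs_mem hc

lemma od_cont {f : ℝ → ℝ} (hf : ContinuousOn f (Ico 0 1)) : ContinuousOn (od f) (Ioo (-1) 1) := by
  refine ContinuousOn.sub (hf.comp (f := fun t : ℝ => max t 0) (by fun_prop) fun c hc => ?_)
    (hf.comp (f := fun t : ℝ => max (-t) 0) (by fun_prop) fun c hc => ?_)
  · exact ⟨le_max_right _ _, max_lt hc.2 one_pos⟩
  · exact ⟨le_max_right _ _, max_lt (by linarith [hc.1]) one_pos⟩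

theorem profile :
    ∃ k : ℝ, 3 / 2 ≤ k ∧ k < 2 ∧ ∃ (g g1 T1 T2 T1' T2' : ℝ → ℝ) (C : ℝ),
      Continuous g ∧ (∀ c, g 0 ≤ g c ∧ g c ≤ g 1) ∧ g 0 < 0 ∧ 0 < g 0 + g 1 ∧
      (∀ c, |g1 c| ≤ C) ∧
      (∀ c ∈ Ioo (-1 : ℝ) 1, HasDerivAt g (g1 c) c ∧
        HasDerivAt T1 (T1' c) c ∧ HasDerivAt T2 (T2' c) c ∧
        T1 c = √(k ^ 2 * g c ^ 2 + (1 - c ^ 2) * g1 c ^ 2) * (k * g c - c * g1 c) ∧
        T2 c = √(k ^ 2 * g c ^ 2 + (1 - c ^ 2) * g1 c ^ 2) * g1 c ∧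
        (2 * k + 1) * T1 c + (2 * k - 2) * c * T2 c + (1 - c ^ 2) * T2' c = 0) ∧
      ContinuousOn g1 (Ioo (-1) 1) ∧ ContinuousOn T1' (Ioo (-1) 1) ∧
      ContinuousOn T2' (Ioo (-1) 1) := by
  obtain ⟨k, hk1, hk2, g, g1, g2, C, h0, h10, hg2c, H, hp⟩ := half
  refine ⟨k, hk1, hk2, ?_⟩
  have hk0 : 0 < k := by linarith
  have hgc : ContinuousOn g (Ico 0 1) := fun c hc => (H c hc).1.continuousAt.continuousWithinAt
  have hg1c : ContinuousOn g1 (Ico 0 1) :=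
    fun c hc => (H c hc).2.1.continuousAt.continuousWithinAt
  have hmono : MonotoneOn g (Ico 0 1) := by
    refine monotoneOn_of_deriv_nonneg (convex_Ico _ _) hgc
      (fun c hc => (H c (interior_subset hc)).1.differentiableAt.differentiableWithinAt) ?_
    intro c hc
    have hc' := interior_subset hc
    rw [(H c hc').1.deriv]
    exact (H c hc').2.2.2.1
  have hbdd : BddAbove (g '' Ioo 0 1) := by
    refine ⟨C, ?_⟩
    rintro _ ⟨c, hc, rfl⟩
    exact (H c (Ioo_subset_Ico_self hc)).2.2.2.2.2.1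
  obtain ⟨M, hM⟩ : ∃ M, Tendsto g (𝓝[<] 1) (𝓝 M) :=
    ⟨_, MonotoneOn.tendsto_nhdsWithin_Ioo_left (nonempty_Ioo.2 one_pos)
      (hmono.mono Ioo_subset_Ico_self) hbdd⟩
  have hleM : ∀ c ∈ Ico (0 : ℝ) 1, g c ≤ M := by
    intro c hc
    refine ge_of_tendsto hM ?_
    filter_upwards [Ico_mem_nhdsLT hc.2] with t ht
    exact hmono hc ⟨le_trans hc.1 ht.1, ht.2⟩ ht.1
  have hM0 : 0 < M :=
    lt_of_lt_of_le (hp (999 / 1000) ⟨le_rfl, by norm_num⟩).1 (hleM _ ⟨by norm_num, by norm_num⟩)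
  have hM1 := energy hk0 h0 h10 H hp hM hM0
  obtain ⟨gt, hgt⟩ : ∃ gt : ℝ → ℝ, gt = fun t => if t < 1 then g t else M := ⟨_, rfl⟩
  have hgt1 : ∀ t, t < 1 → gt t = g t := fun t ht => by rw [hgt]; simp [ht]
  have hgt2 : ∀ t, 1 ≤ t → gt t = M := fun t ht => by rw [hgt]; simp [not_lt.2 ht]
  have hgtd : ∀ c ∈ Ico (0 : ℝ) 1, HasDerivAt gt (g1 c) c := by
    intro c hc
    refine (H c hc).1.congr_of_eventuallyEq ?_
    filter_upwards [eventually_lt_nhds hc.2] with t ht using hgt1 t ht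
  have hgtc : ContinuousOn gt (Ici 0) := by
    intro c hc
    refine ContinuousAt.continuousWithinAt ?_
    rcases lt_trichotomy c 1 with h | h | h
    · exact (hgtd c ⟨hc, h⟩).continuousAt
    · subst h
      rw [continuousAt_iff_continuous_left'_right']
      constructor
      · rw [ContinuousWithinAt, hgt2 1 le_rfl]
        refine hM.congr' ?_
        filter_upwards [self_mem_nhdsWithin] with t ht using (hgt1 t ht).symm
      · rw [ContinuousWithinAt, hgt2 1 le_rfl]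
        refine tendsto_const_nhds.congr' ?_
        filter_upwards [self_mem_nhdsWithin] with t ht using (hgt2 t (le_of_lt ht)).symm
    · refine (continuousAt_const (y := M)).congr ?_
      filter_upwards [eventually_gt_nhds h] with t ht using (hgt2 t ht.le).symm
  obtain ⟨ρ, hρ⟩ : ∃ ρ : ℝ → ℝ, ρ = fun c => k ^ 2 * g c ^ 2 + (1 - c ^ 2) * g1 c ^ 2 := ⟨_, rfl⟩
  have hρpos : ∀ c ∈ Ico (0 : ℝ) 1, 0 < ρ c := fun c hc => by rw [hρ]; exact (H c hc).2.2.1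
  obtain ⟨w, hw⟩ : ∃ w : ℝ → ℝ, w = fun c => √(ρ c) := ⟨_, rfl⟩
  have hwpos : ∀ c ∈ Ico (0 : ℝ) 1, 0 < w c := fun c hc => by
    rw [hw]; exact Real.sqrt_pos.2 (hρpos c hc)
  have hw2 : ∀ c ∈ Ico (0 : ℝ) 1, w c ^ 2 = k ^ 2 * g c ^ 2 + (1 - c ^ 2) * g1 c ^ 2 :=
    fun c hc => by
      rw [hw]
      simp only
      rw [Real.sq_sqrt (hρpos c hc).le, hρ]
  obtain ⟨w', hw'⟩ : ∃ w' : ℝ → ℝ,
      w' = fun c => g1 c * (k ^ 2 * g c - c * g1 c + (1 - c ^ 2) * g2 c) / w c := ⟨_, rfl⟩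
  have hwd : ∀ c ∈ Ico (0 : ℝ) 1, HasDerivAt w (w' c) c := by
    intro c hc
    obtain ⟨d1, d2, -⟩ := H c hc
    have a1 := (d1.fun_pow 2).const_mul (k ^ 2)
    have a2 := (((hasDerivAt_id' c).fun_pow 2).const_sub 1).fun_mul (d2.fun_pow 2)
    have a3 : HasDerivAt ρ _ c := hρ ▸ a1.fun_add a2
    have a4 := a3.sqrt (hρpos c hc).ne'
    have a5 := (hwpos c hc).ne'
    rw [hw'] 
    rw [hw] at a5 ⊢
    refine a4.congr_deriv ?_
    simp only at a5 ⊢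
    field_simp
    norm_num
    ring
  have hwc : ContinuousOn w (Ico 0 1) := fun c hc => (hwd c hc).continuousAt.continuousWithinAt
  have hw'c : ContinuousOn w' (Ico 0 1) := by
    rw [hw']
    exact ContinuousOn.div (by fun_prop) hwc fun c hc => (hwpos c hc).ne'
  have hw'0 : w' 0 = 0 := by rw [hw']; simp [h10]
  obtain ⟨S1, hS1⟩ : ∃ S1 : ℝ → ℝ, S1 = fun c => w c * (k * g c - c * g1 c) := ⟨_, rfl⟩
  obtain ⟨S2, hS2⟩ : ∃ S2 : ℝ → ℝ, S2 = fun c => w c * g1 c := ⟨_, rfl⟩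
  obtain ⟨S1', hS1'⟩ : ∃ S1' : ℝ → ℝ, S1' = fun c => w' c * (k * g c - c * g1 c) +
    w c * (k * g1 c - (1 * g1 c + c * g2 c)) := ⟨_, rfl⟩
  obtain ⟨S2', hS2'⟩ : ∃ S2' : ℝ → ℝ, S2' = fun c => w' c * g1 c + w c * g2 c := ⟨_, rfl⟩
  have hS1d : ∀ c ∈ Ico (0 : ℝ) 1, HasDerivAt S1 (S1' c) c := by
    intro c hc
    rw [hS1, hS1']
    exact (hwd c hc).fun_mul (((H c hc).1.const_mul k).fun_sub
      ((hasDerivAt_id' c).fun_mul (H c hc).2.1))
  have hS2d : ∀ c ∈ Ico (0 : ℝ) 1, HasDerivAt S2 (S2' c) c := by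
    intro c hc
    rw [hS2, hS2']
    exact (hwd c hc).fun_mul (H c hc).2.1
  have hS1'0 : S1' 0 = 0 := by rw [hS1']; simp [hw'0, h10]
  have hS20 : S2 0 = 0 := by rw [hS2]; simp [h10]
  have hrel : ∀ c ∈ Ico (0 : ℝ) 1,
      (2 * k + 1) * S1 c + (2 * k - 2) * c * S2 c + (1 - c ^ 2) * S2' c = 0 := by
    intro c hc
    have ode := (H c hc).2.2.2.2.2.2
    have a5 := (hwpos c hc).ne'
    have a6 := hw2 c hc
    rw [hS1, hS2, hS2', hw']
    simp only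
    field_simp
    rw [a6]
    linear_combination ode
  have hC0 : 0 ≤ C := le_trans (H 0 ⟨le_rfl, one_pos⟩).2.2.2.1 (H 0 ⟨le_rfl, one_pos⟩).2.2.2.2.1
  refine ⟨fun t => gt |t|, (Ioo (-1 : ℝ) 1).indicator (od g1), fun t => S1 |t|, od S2, od S1',
    fun t => S2' |t|, C, hgtc.comp_continuous continuous_abs fun t => abs_nonneg t, fun c => ?_,
    ?_, ?_, fun c => ?_, fun c hc => ?_, (od_cont hg1c).congr fun c hc => indicator_of_mem hc _,
    od_cont (by rw [hS1']; fun_prop), ev_cont (by rw [hS2']; fun_prop)⟩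
  · simp only [abs_zero, abs_one, hgt1 0 one_pos, hgt2 1 le_rfl]
    rcases lt_or_ge |c| 1 with h | h
    · rw [hgt1 _ h]
      exact ⟨hmono ⟨le_rfl, one_pos⟩ ⟨abs_nonneg c, h⟩ (abs_nonneg c), hleM _ ⟨abs_nonneg c, h⟩⟩
    · rw [hgt2 _ h, h0]
      constructor <;> linarith
  · simp only [abs_zero, hgt1 0 one_pos, h0]; norm_num
  · simp only [abs_zero, abs_one, hgt1 0 one_pos, hgt2 1 le_rfl, h0]; linarith
  · by_cases hc : c ∈ Ioo (-1 : ℝ) 1
    · rw [indicator_of_mem hc]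
      rcases le_total 0 c with h | h
      · obtain ⟨-, -, -, b1, b2, -⟩ := H c ⟨h, hc.2⟩
        rw [od_pos h10 h, abs_of_nonneg b1]; exact b2
      · obtain ⟨-, -, -, b1, b2, -⟩ := H (-c) ⟨by linarith, by linarith [hc.1]⟩
        rw [od_neg h10 h, abs_neg, abs_of_nonneg b1]; exact b2
    · rw [indicator_of_notMem hc, abs_zero]; exact hC0
  · rw [indicator_of_mem hc]
    refine ⟨ev_deriv hgtd h10 hc, ev_deriv hS1d hS1'0 hc, od_deriv hS2d hS20 hc, ?_⟩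
    simp only [hgt1 _ (abs_mem hc).2]
    rcases le_total 0 c with h | h
    · rw [od_pos h10 h, od_pos hS20 h, abs_of_nonneg h]
      refine ⟨by rw [hS1, hw, hρ], by rw [hS2, hw, hρ], hrel c ⟨h, hc.2⟩⟩
    · rw [od_neg h10 h, od_neg hS20 h, abs_of_nonpos h]
      have := hrel (-c) ⟨by linarith, by linarith [hc.1]⟩
      refine ⟨?_, ?_, by linear_combination this⟩
      · rw [hS1, hw, hρ]
        simp only [neg_sq]
        ring
      · rw [hS2, hw, hρ]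
        simp only [neg_sq]
        ring

end Pool.Agent.H27Z.AM
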