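import Mathlib
import Pool.Agent.H27Z.PH.Homog
import Pool.Agent.H27Z.AM.Profile

set_option autoImplicit false

namespace Pool.Agent.H27Z.AM

open Set Filter Topology MeasureTheory Metric Pool.Agent.H27Z.PH
open scoped RealInnerProductSpace

variable {d : ℕ}

noncomputable def rr (π : Fin d → ℝ) (x : Eu d) : ℝ := √(qf π x)

noncomputable def tt (π : Fin d → ℝ) (i0 : Fin d) (x : Eu d) : ℝ := x i0 / rr π x

noncomputable def ee (i0 : Fin d) : Eu d := EuclideanSpace.single i0 1

def Uh (π : Fin d → ℝ) (i0 : Fin d) : Set (Eu d) := {x | x i0 ^ 2 < qf π x}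

noncomputable def gr (π : Fin d → ℝ) (i0 : Fin d) (b T T' : ℝ) (x : Eu d) : Eu d :=
  rr π x ^ (b - 2) • ((b * T - tt π i0 x * T') • dg π x + (T' * rr π x) • ee i0)

variable {π : Fin d → ℝ} {i0 : Fin d}

lemma rr_continuous : Continuous (rr π) := (qf_continuous π).sqrt

lemma rr_nonneg (x : Eu d) : 0 ≤ rr π x := Real.sqrt_nonneg _

lemma Uh_open : IsOpen (Uh π i0) := isOpen_lt (by fun_prop) (qf_continuous π)

lemma Uh_qf {x : Eu d} (hx : x ∈ Uh π i0) : 0 < qf π x := lt_of_le_of_lt (sq_nonneg _) hx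

lemma Uh_pos {x : Eu d} (hx : x ∈ Uh π i0) : 0 < rr π x := Real.sqrt_pos.2 (Uh_qf hx)

lemma tt_mul {x : Eu d} (hx : 0 < rr π x) : x i0 = tt π i0 x * rr π x := by
  unfold tt
  field_simp

lemma Uh_tt {x : Eu d} (hx : x ∈ Uh π i0) : tt π i0 x ∈ Ioo (-1 : ℝ) 1 := by
  have h := Uh_pos hx
  have h2 : |x i0| < rr π x := Real.lt_sqrt_of_sq_lt (by rw [sq_abs]; exact hx)
  have h3 := abs_lt.1 h2
  unfold tt
  constructor
  · rw [lt_div_iff₀ h]; linarith [h3.1]
  · rw [div_lt_iff₀ h]; linarith [h3.2]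

lemma tt_continuousAt {x : Eu d} (hx : 0 < rr π x) : ContinuousAt (tt π i0) x :=
  ContinuousAt.div (f := fun x : Eu d => x i0) (by fun_prop) rr_continuous.continuousAt hx.ne'

lemma rr_smul {s : ℝ} (hs : 0 < s) (x : Eu d) : rr π (s • x) = s * rr π x := by
  unfold rr
  rw [qf_smul, Real.sqrt_mul (sq_nonneg s), Real.sqrt_sq hs.le]

lemma tt_smul {s : ℝ} (hs : 0 < s) (x : Eu d) : tt π i0 (s • x) = tt π i0 x := by
  unfold tt
  rw [rr_smul hs, PiLp.smul_apply, smul_eq_mul, mul_div_mul_left _ _ hs.ne']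

lemma hasFDerivAt_gr {x : Eu d} (hx : x ∈ Uh π i0) (b : ℝ) {T : ℝ → ℝ} {t' : ℝ}
    (hT : HasDerivAt T t' (tt π i0 x)) :
    HasFDerivAt (fun y => rr π y ^ b * T (tt π i0 y))
      (innerSL ℝ (gr π i0 b (T (tt π i0 x)) t' x)) x := by
  have hR := Uh_pos hx
  have h1 : HasFDerivAt (rr π) _ x := (qf_hasFDerivAt π x).sqrt (Uh_qf hx).ne'
  have h2 : HasFDerivAt (fun y : Eu d => y i0) (EuclideanSpace.proj i0 : Eu d →L[ℝ] ℝ) x :=
    (EuclideanSpace.proj i0 : Eu d →L[ℝ] ℝ).hasFDerivAt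
  have h3 := (h2.mul ((hasDerivAt_inv hR.ne').comp_hasFDerivAt x h1)).congr_of_eventuallyEq
    (f₁ := tt π i0) (Eventually.of_forall fun y => by simp [tt, div_eq_mul_inv])
  have h4 := (h1.rpow_const (p := b) (Or.inl hR.ne')).mul (hT.comp_hasFDerivAt x h3)
  refine h4.congr_fderiv ?_
  ext v
  have e : rr π x ^ b = rr π x ^ (b - 2) * rr π x ^ 2 := by
    rw [← Real.rpow_natCast, ← Real.rpow_add hR]; congr 1; push_cast; ring
  have e1 : rr π x ^ (b - 1) = rr π x ^ (b - 2) * rr π x := by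
    rw [← Real.rpow_add_one hR.ne']; congr 1; ring
  have e2 : √(qf π x) = rr π x := rfl
  have e3 : ⟪ee i0, v⟫ = v i0 := by simp [ee, EuclideanSpace.inner_single_left]
  have e4 : (EuclideanSpace.proj i0 : Eu d →L[ℝ] ℝ) v = v i0 := rfl
  simp only [gr, add_apply, smul_apply, innerSL_apply_apply, inner_add_left, inner_smul_left,
    smul_eq_mul, Function.comp, conj_trivial, e, e1, e2, e3, e4, tt_mul (i0 := i0) hR]
  field_simp
  ring

lemma gr_continuousOn (b : ℝ) {T T' : ℝ → ℝ} (hT : ContinuousOn T (Ioo (-1) 1))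
    (hT' : ContinuousOn T' (Ioo (-1) 1)) :
    ContinuousOn (fun x => gr π i0 b (T (tt π i0 x)) (T' (tt π i0 x)) x) (Uh π i0) := by
  have h4 : ContinuousOn (tt π i0) (Uh π i0) :=
    fun x hx => (tt_continuousAt (Uh_pos hx)).continuousWithinAt
  have h1 : ContinuousOn (fun x => T (tt π i0 x)) (Uh π i0) := hT.comp h4 fun _ hx => Uh_tt hx
  have h2 : ContinuousOn (fun x => T' (tt π i0 x)) (Uh π i0) := hT'.comp h4 fun _ hx => Uh_tt hx
  have h3 : ContinuousOn (fun x => rr π x ^ (b - 2)) (Uh π i0) :=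
    rr_continuous.continuousOn.rpow_const fun _ hx => Or.inl (Uh_pos hx).ne'
  have h6 : ContinuousOn (dg π) (Uh π i0) := (dg_continuous _).continuousOn
  unfold gr
  exact h3.smul ((((continuousOn_const.mul h1).sub (h4.mul h2)).smul
    h6).add ((h2.mul rr_continuous.continuousOn).smul continuousOn_const))

lemma inner_ee : ⟪ee i0, ee i0⟫ = 1 := by simp [ee]

section proj

variable (hπ : ∀ i, π i = 0 ∨ π i = 1) (h0 : π i0 = 1)
include hπ

lemma qf_nonneg (x : Eu d) : 0 ≤ qf π x := by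
  refine Finset.sum_nonneg fun i _ => ?_
  rcases hπ i with h | h <;> rw [h] <;> positivity

lemma rr_sq (x : Eu d) : rr π x ^ 2 = qf π x := Real.sq_sqrt (qf_nonneg hπ x)

lemma rr_le (x : Eu d) : rr π x ≤ ‖x‖ := by
  refine Real.sqrt_le_iff.2 ⟨norm_nonneg _, ?_⟩
  rw [← real_inner_self_eq_norm_sq, inner_eq]
  refine Finset.sum_le_sum fun i _ => ?_
  rcases hπ i with h | h <;> rw [h] <;> nlinarith [sq_nonneg (x i)]

lemma inner_PP' (x : Eu d) : ⟪dg π x, dg π x⟫ = rr π x ^ 2 := by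
  rw [inner_dg, rr_sq hπ]
  congr 1
  funext i
  rcases hπ i with h | h <;> rw [h] <;> ring

include h0

lemma sq_le_qf (x : Eu d) : x i0 ^ 2 ≤ qf π x := by
  have := Finset.single_le_sum (f := fun i => π i * x i ^ 2) (s := Finset.univ)
    (fun i _ => by rcases hπ i with h | h <;> simp only [h] <;> positivity) (Finset.mem_univ i0)
  simp only [h0, one_mul] at this
  exact this

lemma mem_Uh {x : Eu d} {j : Fin d} (hj : π j = 1) (hji : j ≠ i0) (hx : x j ≠ 0) :
    x ∈ Uh π i0 := by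
  have := Finset.add_le_sum (f := fun i => π i * x i ^ 2) (s := Finset.univ)
    (fun i _ => by rcases hπ i with h | h <;> simp only [h] <;> positivity) (Finset.mem_univ i0)
    (Finset.mem_univ j) hji.symm
  simp only [h0, hj, one_mul] at this
  have h2 : 0 < x j ^ 2 := by positivity
  change x i0 ^ 2 < qf π x
  unfold qf
  linarith

omit hπ in
lemma inner_Pe (x : Eu d) : ⟪dg π x, ee i0⟫ = x i0 := by
  simp [ee, EuclideanSpace.inner_single_right, h0]

lemma tt_sq_le (x : Eu d) : tt π i0 x ^ 2 ≤ 1 := by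
  unfold tt
  rw [div_pow, rr_sq hπ]
  exact div_le_one_of_le₀ (sq_le_qf hπ h0 x) (qf_nonneg hπ x)

lemma inner_gr_P {x : Eu d} (hR : 0 < rr π x) (b t t' : ℝ) :
    ⟪gr π i0 b t t' x, dg π x⟫ = rr π x ^ b * (b * t) := by
  have e : rr π x ^ b = rr π x ^ (b - 2) * rr π x ^ 2 := by
    rw [← Real.rpow_natCast, ← Real.rpow_add hR]; congr 1; push_cast; ring
  simp only [gr, inner_add_left, inner_smul_left, conj_trivial, inner_PP' hπ,
    real_inner_comm (dg π x) (ee i0), inner_Pe h0, e, tt_mul (i0 := i0) hR]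
  ring

omit hπ in
lemma inner_gr_e {x : Eu d} (hR : 0 < rr π x) (b t t' : ℝ) :
    ⟪gr π i0 b t t' x, ee i0⟫ =
      rr π x ^ (b - 1) * (b * tt π i0 x * t + (1 - tt π i0 x ^ 2) * t') := by
  have e1 : rr π x ^ (b - 1) = rr π x ^ (b - 2) * rr π x := by
    rw [← Real.rpow_add_one hR.ne']; congr 1; ring
  simp only [gr, inner_add_left, inner_smul_left, conj_trivial, inner_ee,
    inner_Pe h0, e1, tt_mul (i0 := i0) hR]
  ring

lemma norm_gr {x : Eu d} (hR : 0 < rr π x) (k t t' : ℝ) :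
    ‖gr π i0 k t t' x‖ =
      rr π x ^ (k - 1) * √(k ^ 2 * t ^ 2 + (1 - tt π i0 x ^ 2) * t' ^ 2) := by
  have h1 := tt_sq_le hπ h0 x
  have h2 : 0 ≤ k ^ 2 * t ^ 2 + (1 - tt π i0 x ^ 2) * t' ^ 2 := by
    have : 0 ≤ 1 - tt π i0 x ^ 2 := by linarith
    positivity
  have h3 := Real.rpow_pos_of_pos hR (k - 1)
  rw [← sq_eq_sq₀ (norm_nonneg _) (by positivity), mul_pow, Real.sq_sqrt h2,
    ← real_inner_self_eq_norm_sq]
  conv_lhs => congr; rfl; unfold gr
  rw [inner_smul_right, inner_add_right, inner_smul_right, inner_smul_right, inner_gr_P hπ h0 hR,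
    inner_gr_e h0 hR]
  have e : rr π x ^ k = rr π x ^ (k - 2) * rr π x ^ 2 := by
    rw [← Real.rpow_natCast, ← Real.rpow_add hR]; congr 1; push_cast; ring
  have e1 : rr π x ^ (k - 1) = rr π x ^ (k - 2) * rr π x := by
    rw [← Real.rpow_add_one hR.ne']; congr 1; ring
  rw [e, e1]
  ring

lemma norm_gr_le {k t t' C : ℝ} (hk : 1 < k) (hk2 : k < 2) (ht : |t| ≤ C) (ht' : |t'| ≤ C)
    (x : Eu d) : ‖gr π i0 k t t' x‖ ≤ rr π x ^ (k - 1) * ((k + 1) * C) := by
  have hC : 0 ≤ C := le_trans (abs_nonneg _) ht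
  rcases (rr_nonneg (π := π) x).eq_or_lt with h | h
  · unfold gr
    rw [← h, Real.zero_rpow (by linarith), Real.zero_rpow (by linarith)]
    simp
  · rw [norm_gr hπ h0 h]
    refine mul_le_mul_of_nonneg_left (Real.sqrt_le_iff.2 ⟨by positivity, ?_⟩)
      (Real.rpow_nonneg h.le _)
    have a1 : t ^ 2 ≤ C ^ 2 := by rw [← sq_abs]; gcongr
    have a2 : t' ^ 2 ≤ C ^ 2 := by rw [← sq_abs]; gcongr
    have a3 : k ^ 2 * t ^ 2 ≤ k ^ 2 * C ^ 2 := by gcongr
    nlinarith [mul_nonneg (sq_nonneg (tt π i0 x)) (sq_nonneg t'), mul_nonneg (by linarith : 0 ≤ k) (sq_nonneg C)]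

lemma gr_continuous {k C : ℝ} (hk : 1 < k) (hk2 : k < 2) {g g1 : ℝ → ℝ} (hg : Continuous g)
    (hg1 : ContinuousOn g1 (Ioo (-1) 1)) (hgb : ∀ c, |g c| ≤ C) (hg1b : ∀ c, |g1 c| ≤ C) :
    Continuous (fun x => gr π i0 k (g (tt π i0 x)) (g1 (tt π i0 x)) x) := by
  rw [continuous_iff_continuousAt]
  intro x
  rcases (rr_nonneg (π := π) x).eq_or_lt with h | h
  · have hz : gr π i0 k (g (tt π i0 x)) (g1 (tt π i0 x)) x = 0 := by
      unfold gr
      rw [← h, Real.zero_rpow (by linarith), zero_smul]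
    rw [ContinuousAt, hz]
    refine squeeze_zero_norm (fun y => norm_gr_le hπ h0 hk hk2 (hgb _) (hg1b _) y) ?_
    have hc : Continuous (fun y => rr π y ^ (k - 1) * ((k + 1) * C)) :=
      (rr_continuous.rpow_const fun _ => Or.inr (by linarith)).mul continuous_const
    have := hc.tendsto x
    rwa [← h, Real.zero_rpow (by linarith), zero_mul] at this
  · by_cases hx : x ∈ Uh π i0
    · exact (gr_continuousOn k hg.continuousOn hg1).continuousAt (Uh_open.mem_nhds hx)
    · have e : (fun x => gr π i0 k (g (tt π i0 x)) (g1 (tt π i0 x)) x) = fun x =>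
          (rr π x ^ (k - 2) * (k * g (tt π i0 x))) • dg π x +
            g1 (tt π i0 x) • (rr π x ^ (k - 2) • (rr π x • ee i0 - tt π i0 x • dg π x)) := by
        funext y
        unfold gr
        module
      rw [e]
      have c1 : ContinuousAt (fun x => rr π x ^ (k - 2)) x :=
        rr_continuous.continuousAt.rpow_const (Or.inl h.ne')
      have c2 := tt_continuousAt (i0 := i0) h
      have c3 : ContinuousAt (dg π) x := (dg_continuous π).continuousAt
      refine ContinuousAt.add ((c1.mul (continuousAt_const.mul (hg.continuousAt.comp c2))).smul c3) ?_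
      have c4 : ContinuousAt
          (fun x => rr π x ^ (k - 2) • (rr π x • ee i0 - tt π i0 x • dg π x)) x :=
        c1.smul ((rr_continuous.continuousAt.smul continuousAt_const).sub (c2.smul c3))
      have hz : rr π x • ee i0 - tt π i0 x • dg π x = 0 := by
        have a1 : x i0 ^ 2 = rr π x ^ 2 := by
          rw [rr_sq hπ]; exact le_antisymm (sq_le_qf hπ h0 x) (not_lt.1 hx)
        have a2 := tt_mul (i0 := i0) h
        rw [← inner_self_eq_zero (𝕜 := ℝ)]
        simp only [inner_sub_left, inner_sub_right, inner_smul_left, inner_smul_right,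
          conj_trivial, inner_ee, inner_PP' hπ, real_inner_comm (dg π x) (ee i0), inner_Pe h0]
        linear_combination (-1 : ℝ) * a1 + (x i0 - tt π i0 x * rr π x) * a2
      rw [ContinuousAt, hz, smul_zero, smul_zero]
      refine squeeze_zero_norm (a := fun x =>
        C * ‖rr π x ^ (k - 2) • (rr π x • ee i0 - tt π i0 x • dg π x)‖) (fun y => ?_) ?_
      · rw [norm_smul, Real.norm_eq_abs]
        exact mul_le_mul_of_nonneg_right (hg1b _) (norm_nonneg _)
      · have := (c4.norm.tendsto).const_mul C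
        simpa [hz] using this

omit hπ h0 in
lemma uu_continuous {k C : ℝ} (hk : 0 < k) {g : ℝ → ℝ} (hg : Continuous g)
    (hgb : ∀ c, |g c| ≤ C) : Continuous (fun x => rr π x ^ k * g (tt π i0 x)) := by
  rw [continuous_iff_continuousAt]
  intro x
  have hc : Continuous (fun y => rr π y ^ k) := rr_continuous.rpow_const fun _ => Or.inr hk.le
  rcases (rr_nonneg (π := π) x).eq_or_lt with h | h
  · rw [ContinuousAt, ← h, Real.zero_rpow hk.ne', zero_mul]
    refine squeeze_zero_norm (a := fun y => rr π y ^ k * C) (fun y => ?_) ?_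
    · rw [Real.norm_eq_abs, abs_mul, abs_of_nonneg (Real.rpow_nonneg (rr_nonneg y) _)]
      exact mul_le_mul_of_nonneg_left (hgb _) (Real.rpow_nonneg (rr_nonneg y) _)
    · have := (hc.mul (continuous_const (y := C))).tendsto x
      simp only [Pi.mul_apply] at this
      rwa [← h, Real.zero_rpow hk.ne', zero_mul] at this
  · exact hc.continuousAt.mul (hg.continuousAt.comp (tt_continuousAt h))

end proj

lemma extend_deriv {u : Eu d → ℝ} {G : Eu d → Eu d} (hu : Continuous u) (hG : Continuous G)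
    (j : Fin d) (hd : ∀ x : Eu d, x j ≠ 0 → HasFDerivAt u (innerSL ℝ (G x)) x) (x : Eu d) :
    HasFDerivAt u (innerSL ℝ (G x)) x := by
  have key : ∀ s : Set (Eu d), Convex ℝ s → IsOpen s → (∀ y ∈ s, y j ≠ 0) →
      HasFDerivWithinAt u (innerSL ℝ (G x)) (closure s) x := by
    intro s h1 h2 h3
    refine hasFDerivWithinAt_closure_of_tendsto_fderiv
      (fun y hy => (hd y (h3 y hy)).differentiableAt.differentiableWithinAt) h1 h2
      (fun y _ => hu.continuousWithinAt) ?_
    have hc : Continuous (fun y => innerSL ℝ (G y)) := (innerSL ℝ).continuous.comp hG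
    refine ((hc.tendsto x).mono_left nhdsWithin_le_nhds).congr' ?_
    filter_upwards [self_mem_nhdsWithin] with y hy using (hd y (h3 y hy)).fderiv.symm
  have hl : IsLinearMap ℝ (fun y : Eu d => y j) := ⟨fun _ _ => rfl, fun _ _ => rfl⟩
  have k1 := key {y | 0 < y j} (convex_halfSpace_gt hl 0) (isOpen_lt continuous_const (by fun_prop))
    fun y hy => ne_of_gt hy
  have k2 := key {y | y j < 0} (convex_halfSpace_lt hl 0) (isOpen_lt (by fun_prop) continuous_const)
    fun y hy => ne_of_lt hy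
  have k3 := k1.union k2
  have hden : Dense ({y : Eu d | 0 < y j} ∪ {y | y j < 0}) := by
    refine Dense.mono ?_ (Measure.dense_of_ae (μ := volume) (ae_coord_ne j))
    intro y hy
    rcases lt_or_gt_of_ne hy with h | h
    · exact Or.inr h
    · exact Or.inl h
  rwa [← closure_union, hden.closure_eq, hasFDerivWithinAt_univ] at k3

end Pool.Agent.H27Z.AM
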