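import Mathlib
import Pool.Agent.H27Z.AM.Field

set_option autoImplicit false

namespace Pool.Agent.H27Z.AM

open Set Filter Topology MeasureTheory Metric Pool.Agent.H27Z.PH
open scoped RealInnerProductSpace Pointwise

variable {d : ℕ} {π : Fin d → ℝ} {i0 : Fin d}

/-- the homogeneous function -/
noncomputable def uu (π : Fin d → ℝ) (i0 : Fin d) (k : ℝ) (g : ℝ → ℝ) (x : Eu d) : ℝ :=
  rr π x ^ k * g (tt π i0 x)

theorem weak (hπ : ∀ i, π i = 0 ∨ π i = 1) (h0 : π i0 = 1) (hs : ∑ i, π i = 4)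
    {i j : Fin d} (hij : i ≠ j) (hi : π i = 1) (hj : π j = 1) (hi0 : i ≠ i0) (hj0 : j ≠ i0)
    {k C : ℝ} (hk : 1 < k) (hk2 : k < 2) {g g1 T1 T2 T1' T2' : ℝ → ℝ} (hg : Continuous g)
    (hgb : ∀ c, |g c| ≤ C) (hg1b : ∀ c, |g1 c| ≤ C)
    (hI : ∀ c ∈ Ioo (-1 : ℝ) 1, HasDerivAt g (g1 c) c ∧
        HasDerivAt T1 (T1' c) c ∧ HasDerivAt T2 (T2' c) c ∧
        T1 c = √(k ^ 2 * g c ^ 2 + (1 - c ^ 2) * g1 c ^ 2) * (k * g c - c * g1 c) ∧
        T2 c = √(k ^ 2 * g c ^ 2 + (1 - c ^ 2) * g1 c ^ 2) * g1 c ∧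
        (2 * k + 1) * T1 c + (2 * k - 2) * c * T2 c + (1 - c ^ 2) * T2' c = 0)
    (hg1c : ContinuousOn g1 (Ioo (-1) 1)) (hT1c : ContinuousOn T1' (Ioo (-1) 1))
    (hT2c : ContinuousOn T2' (Ioo (-1) 1)) :
    ContDiff ℝ 1 (uu π i0 k g) ∧ ∀ φ : Eu d → ℝ, ContDiff ℝ 1 φ → HasCompactSupport φ →
      ∫ y, ‖gradient (uu π i0 k g) y‖ ^ ((3 : ℝ) - 2) *
        inner ℝ (gradient (uu π i0 k g) y) (gradient φ y) = 0 := by
  obtain ⟨G, hG⟩ : ∃ G : Eu d → Eu d,
      G = fun x => gr π i0 k (g (tt π i0 x)) (g1 (tt π i0 x)) x := ⟨_, rfl⟩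
  have hGc : Continuous G := hG ▸ gr_continuous hπ h0 hk hk2 hg hg1c hgb hg1b
  have huc : Continuous (uu π i0 k g) := uu_continuous (by linarith) hg hgb
  have hud : ∀ x, HasFDerivAt (uu π i0 k g) (innerSL ℝ (G x)) x := by
    refine extend_deriv huc hGc j fun x hx => ?_
    have hU := mem_Uh hπ h0 hj hj0 hx
    rw [hG]
    exact hasFDerivAt_gr hU k (hI _ (Uh_tt hU)).1
  have hgrad : ∀ x, gradient (uu π i0 k g) x = G x := by
    intro x
    refine HasGradientAt.gradient (hasGradientAt_iff_hasFDerivAt.2 ?_)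
    exact hud x
  refine ⟨contDiff_one_iff_hasFDerivAt.2 ⟨_, (innerSL ℝ).continuous.comp hGc, hud⟩,
    fun φ hφ hφc => ?_⟩
  have hT1 : ContinuousOn T1 (Ioo (-1) 1) :=
    fun c hc => (hI c hc).2.1.continuousAt.continuousWithinAt
  have hT2 : ContinuousOn T2 (Ioo (-1) 1) :=
    fun c hc => (hI c hc).2.2.1.continuousAt.continuousWithinAt
  have hFc : Continuous (fun x => ‖G x‖ • G x) := hGc.norm.smul hGc
  have key := remove (F := fun x => ‖G x‖ • G x) (D := fun _ => 0) hFc.aestronglyMeasurable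
    aestronglyMeasurable_const (fun r => ?_) (fun r => ⟨0, fun x _ => by simp⟩) hij (U := univ)
    (fun ψ k1 k2 k3 => ?_) φ hφ hφc (subset_univ _)
  · rw [← key]
    congr 1
    funext y
    rw [hgrad, show (3 : ℝ) - 2 = 1 by norm_num, Real.rpow_one, mul_zero, add_zero, map_smul,
      smul_eq_mul, real_inner_comm, gradient, InnerProductSpace.toDual_symm_apply]
  · obtain ⟨C1, hC1⟩ := (isCompact_closedBall (0 : Eu d) r).exists_bound_of_continuousOn
      hFc.continuousOn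
    exact ⟨C1, fun x hx => hC1 x (mem_closedBall_zero_iff.2 hx)⟩
  · have k4 : tsupport ψ ⊆ Uh π i0 := by
      refine k3.trans ?_
      rintro x ⟨-, hx⟩
      by_cases h : x i = 0
      · refine mem_Uh hπ h0 hj hj0 fun h' => hx ?_
        rw [h, h']; norm_num
      · exact mem_Uh hπ h0 hi hi0 h
    have z1 := ibp_diag Uh_open (f := fun y => rr π y ^ (2 * k - 3) * T1 (tt π i0 y))
      (γ := fun x => gr π i0 (2 * k - 3) (T1 (tt π i0 x)) (T1' (tt π i0 x)) x)
      (fun x hx => hasFDerivAt_gr hx _ (hI _ (Uh_tt hx)).2.1)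
      (gr_continuousOn _ hT1 hT1c) k1 k2 k4 π
    have z2 := ibp_const Uh_open (f := fun y => rr π y ^ (2 * k - 2) * T2 (tt π i0 y))
      (γ := fun x => gr π i0 (2 * k - 2) (T2 (tt π i0 x)) (T2' (tt π i0 x)) x)
      (fun x hx => hasFDerivAt_gr hx _ (hI _ (Uh_tt hx)).2.2.1)
      (gr_continuousOn _ hT2 hT2c) k1 k2 k4 (ee i0)
    refine Eq.trans ?_ (z1.add z2).2
    congr 1
    funext x
    beta_reduce
    by_cases hx : x ∈ Uh π i0
    · obtain ⟨-, -, -, e1, e2, e3⟩ := hI _ (Uh_tt hx)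
      have hR := Uh_pos hx
      have eF : ‖G x‖ • G x = (rr π x ^ (2 * k - 3) * T1 (tt π i0 x)) • dg π x +
          (rr π x ^ (2 * k - 2) * T2 (tt π i0 x)) • ee i0 := by
        have a1 : rr π x ^ (2 * k - 3) = rr π x ^ (k - 1) * rr π x ^ (k - 2) := by
          rw [← Real.rpow_add hR]; congr 1; ring
        have a2 : rr π x ^ (2 * k - 2) = rr π x ^ (k - 1) * rr π x ^ (k - 2) * rr π x := by
          rw [← a1, ← Real.rpow_add_one hR.ne']; congr 1; ring
        rw [hG]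
        simp only
        rw [norm_gr hπ h0 hR, e1, e2, a1, a2]
        simp only [gr]
        module
      rw [eF, map_add, inner_gr_P hπ h0 hR, inner_gr_e h0 hR, hs,
        show 2 * k - 2 - 1 = 2 * k - 3 by ring]
      linear_combination (-(ψ x * rr π x ^ (2 * k - 3))) * e3
    · have hx' : x ∉ tsupport ψ := fun h => hx (k4 h)
      simp [image_eq_zero_of_notMem_tsupport hx', fderiv_of_notMem_tsupport ℝ hx']

lemma uu_smul (k : ℝ) (g : ℝ → ℝ) {s : ℝ} (hs : 0 < s) (x : Eu d) :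
    uu π i0 k g (s • x) = s ^ k * uu π i0 k g x := by
  unfold uu
  rw [rr_smul hs, tt_smul hs, Real.mul_rpow hs.le (rr_nonneg x), mul_assoc]

lemma rr_single {j : Fin d} (hj : π j = 1) {ε : ℝ} (hε : 0 < ε) :
    rr π (EuclideanSpace.single j ε) = ε := by
  unfold rr qf
  rw [Finset.sum_eq_single j (fun b _ hb => by simp [hb]) (by simp)]
  simp [hj, hε.le]

theorem amvp (hπ : ∀ i, π i = 0 ∨ π i = 1) (h0 : π i0 = 1) {j : Fin d} (hj : π j = 1)
    (hj0 : j ≠ i0) {k : ℝ} (hk : 0 < k) (hk2 : k < 2) {g : ℝ → ℝ}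
    (hgm : ∀ c, g 0 ≤ g c ∧ g c ≤ g 1) (hm : g 0 < 0) (hM : 0 < g 1) {a b : ℝ}
    (H : (fun ε : ℝ => uu π i0 k g 0 -
          (a * (sSup (uu π i0 k g '' closedBall 0 ε) + sInf (uu π i0 k g '' closedBall 0 ε)) +
            b * ⨍ y in ball 0 ε, uu π i0 k g y)) =o[𝓝[>] (0 : ℝ)] (fun ε : ℝ => ε ^ 2)) :
    a * (g 1 + g 0) + b * ⨍ y in ball 0 1, uu π i0 k g y = 0 := by
  have hr : ∀ ε : ℝ, ∀ x ∈ closedBall (0 : Eu d) ε, 0 ≤ rr π x ^ k ∧ rr π x ^ k ≤ ε ^ k :=
    fun ε x hx => ⟨Real.rpow_nonneg (rr_nonneg x) _, Real.rpow_le_rpow (rr_nonneg x)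
      ((rr_le hπ x).trans (mem_closedBall_zero_iff.1 hx)) hk.le⟩
  have hsup : ∀ ε : ℝ, 0 < ε → sSup (uu π i0 k g '' closedBall 0 ε) = ε ^ k * g 1 := by
    intro ε hε
    refine IsGreatest.csSup_eq ⟨⟨EuclideanSpace.single i0 ε, by simp [abs_of_pos hε], ?_⟩, ?_⟩
    · unfold uu tt
      rw [rr_single h0 hε]
      simp [hε.ne']
    · rintro _ ⟨x, hx, rfl⟩
      obtain ⟨b1, b2⟩ := hr ε x hx
      exact (mul_le_mul_of_nonneg_left (hgm _).2 b1).trans (mul_le_mul_of_nonneg_right b2 hM.le)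
  have hinf : ∀ ε : ℝ, 0 < ε → sInf (uu π i0 k g '' closedBall 0 ε) = ε ^ k * g 0 := by
    intro ε hε
    refine IsLeast.csInf_eq ⟨⟨EuclideanSpace.single j ε, by simp [abs_of_pos hε], ?_⟩, ?_⟩
    · unfold uu tt
      rw [rr_single hj hε]
      simp [hj0.symm]
    · rintro _ ⟨x, hx, rfl⟩
      obtain ⟨b1, b2⟩ := hr ε x hx
      exact (mul_le_mul_of_nonpos_right b2 hm.le).trans (mul_le_mul_of_nonneg_left (hgm _).1 b1)
  have havg : ∀ ε : ℝ, 0 < ε →
      ⨍ y in ball 0 ε, uu π i0 k g y = ε ^ k * ⨍ y in ball 0 1, uu π i0 k g y := by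
    intro ε hε
    have := avg_scale (uu π i0 k g) hε 1
    rw [mul_one] at this
    rw [this]
    simp only [uu_smul k g hε]
    rw [setAverage_eq, setAverage_eq, integral_const_mul, smul_eq_mul, smul_eq_mul]
    ring
  have hu0 : uu π i0 k g 0 = 0 := by
    unfold uu rr qf
    simp [hk.ne']
  by_contra hne
  refine not_linear_bound (C := 1) (β := k - 1) (abs_pos.2 hne) (by linarith) ?_
  filter_upwards [H.bound one_pos, self_mem_nhdsWithin] with ε h1 hε
  have hε : 0 < ε := hε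
  rw [hsup ε hε, hinf ε hε, havg ε hε, hu0, Real.norm_eq_abs, Real.norm_eq_abs,
    abs_of_pos (pow_pos hε 2)] at h1
  have e : (0 - (a * (ε ^ k * g 1 + ε ^ k * g 0) + b * (ε ^ k * ⨍ y in ball 0 1, uu π i0 k g y))) =
      -(ε ^ k * (a * (g 1 + g 0) + b * ⨍ y in ball 0 1, uu π i0 k g y)) := by ring
  rw [e, abs_neg, abs_mul, abs_of_pos (Real.rpow_pos_of_pos hε k)] at h1
  rw [Real.rpow_sub_one hε.ne', div_mul_eq_mul_div, div_le_iff₀ hε]
  linarith

/-- drop the first coordinate -/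
noncomputable def tl (x : Eu 5) : Eu 4 := WithLp.toLp 2 fun i => x i.succ

theorem slice {f : Eu 4 → ℝ} (hf : Continuous f) {κ : ℝ}
    (hom : ∀ s : ℝ, 0 < s → ∀ y, f (s • y) = s ^ κ * f y) :
    ∫ x in ball (0 : Eu 5) 1, f (tl x) =
      (∫ s in (-1 : ℝ)..1, √(1 - s ^ 2) ^ 4 * √(1 - s ^ 2) ^ κ) * ∫ y in ball (0 : Eu 4) 1, f y := by
  let F : Eu 5 → ℝ := (ball (0 : Eu 5) 1).indicator fun x => f (tl x)
  have htl : Continuous tl := by unfold tl; fun_prop
  have hF : Integrable F := by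
    refine (integrable_indicator_iff measurableSet_ball).2 ?_
    exact ((hf.comp htl).continuousOn.integrableOn_compact (isCompact_closedBall 0 1)).mono_set
      ball_subset_closedBall
  have m1 := PiLp.volume_preserving_toLp (Fin 5)
  have m2 := (volume_preserving_piFinSuccAbove (fun _ : Fin 5 => ℝ) 0).symm
  have m3 : MeasurePreserving (Prod.map id (WithLp.ofLp : Eu 4 → (Fin 4 → ℝ)))
      ((volume : Measure ℝ).prod volume) ((volume : Measure ℝ).prod volume) :=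
    (MeasurePreserving.id volume).prod (PiLp.volume_preserving_ofLp (Fin 4))
  have m := (m1.comp m2).comp m3
  obtain ⟨Ψ, hΨ⟩ : ∃ Ψ : ℝ × Eu 4 → Eu 5, Ψ = (WithLp.toLp 2 ∘
    (MeasurableEquiv.piFinSuccAbove (fun _ : Fin 5 => ℝ) 0).symm) ∘
      Prod.map id (WithLp.ofLp : Eu 4 → (Fin 4 → ℝ)) := ⟨_, rfl⟩
  rw [← hΨ] at m
  have hΨ0 : ∀ s y, Ψ (s, y) 0 = s := fun s y => by rw [hΨ]; rfl
  have hΨt : ∀ s y, tl (Ψ (s, y)) = y := fun s y => by
    rw [hΨ]
    ext i
    simp [tl, MeasurableEquiv.piFinSuccAbove]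
  have hnorm : ∀ x : Eu 5, ‖x‖ ^ 2 = x 0 ^ 2 + ‖tl x‖ ^ 2 := by
    intro x
    rw [EuclideanSpace.real_norm_sq_eq, EuclideanSpace.real_norm_sq_eq, Fin.sum_univ_succ]
    rfl
  have e1 : ∫ x, F x = ∫ q, F (Ψ q) ∂((volume : Measure ℝ).prod volume) := by
    rw [← m.map_eq, integral_map m.measurable.aemeasurable]
    rw [m.map_eq]
    exact hF.aestronglyMeasurable
  rw [← integral_indicator measurableSet_ball]
  change ∫ x, F x = _
  rw [e1, integral_prod (fun q => F (Ψ q)) (m.integrable_comp_of_integrable hF)]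
  have e2 : ∀ s : ℝ, ∫ y, F (Ψ (s, y)) = (Ioo (-1 : ℝ) 1).indicator
      (fun s => √(1 - s ^ 2) ^ 4 * √(1 - s ^ 2) ^ κ * ∫ y in ball (0 : Eu 4) 1, f y) s := by
    intro s
    by_cases hs : s ∈ Ioo (-1 : ℝ) 1
    · have hu := u_pos hs
      have hr := Real.sqrt_pos.2 hu
      have a1 : ∀ y, F (Ψ (s, y)) = (ball (0 : Eu 4) √(1 - s ^ 2)).indicator f y := by
        intro y
        have b1 := hnorm (Ψ (s, y))
        rw [hΨ0, hΨt] at b1
        have b2 : Ψ (s, y) ∈ ball (0 : Eu 5) 1 ↔ y ∈ ball (0 : Eu 4) √(1 - s ^ 2) := by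
          rw [mem_ball_zero_iff, mem_ball_zero_iff, Real.lt_sqrt (norm_nonneg _),
            ← sq_lt_one_iff₀ (norm_nonneg _), b1]
          constructor <;> intro h <;> linarith
        by_cases hy : y ∈ ball (0 : Eu 4) √(1 - s ^ 2)
        · simp only [F]
          rw [indicator_of_mem hy, indicator_of_mem (b2.2 hy), hΨt]
        · simp only [F]
          rw [indicator_of_notMem hy, indicator_of_notMem (fun h => hy (b2.1 h))]
      simp only [a1]
      rw [indicator_of_mem hs, integral_indicator measurableSet_ball]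
      have a2 := Measure.setIntegral_comp_smul_of_pos volume f (ball (0 : Eu 4) 1) hr
      rw [_root_.smul_ball hr.ne', smul_zero, Real.norm_eq_abs, abs_of_pos hr, mul_one,
        finrank_euclideanSpace, Fintype.card_fin] at a2
      simp only [hom _ hr] at a2
      rw [integral_const_mul, smul_eq_mul] at a2
      rw [mul_assoc, a2]
      field_simp
    · rw [indicator_of_notMem hs]
      have a1 : ∀ y, F (Ψ (s, y)) = 0 := by
        intro y
        refine indicator_of_notMem (fun h => hs ?_) _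
        have b1 := hnorm (Ψ (s, y))
        rw [hΨ0, hΨt] at b1
        rw [mem_ball_zero_iff, ← sq_lt_one_iff₀ (norm_nonneg _), b1] at h
        have : s ^ 2 < 1 := by nlinarith [sq_nonneg ‖y‖]
        constructor <;> nlinarith
      simp [a1]
  simp only [e2]
  rw [integral_indicator measurableSet_Ioo, integral_mul_const,
    intervalIntegral.integral_of_le (by norm_num), integral_Ioc_eq_integral_Ioo]

lemma I_zero : ∫ s in (-1 : ℝ)..1, √(1 - s ^ 2) ^ 4 * √(1 - s ^ 2) ^ (0 : ℝ) = 16 / 15 := by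
  have : ∫ s in (-1 : ℝ)..1, √(1 - s ^ 2) ^ 4 * √(1 - s ^ 2) ^ (0 : ℝ) =
      ∫ s in (-1 : ℝ)..1, (1 - 2 * s ^ 2 + s ^ 4) := by
    refine intervalIntegral.integral_congr fun s hs => ?_
    rw [uIcc_of_le (by norm_num)] at hs
    have h : 0 ≤ 1 - s ^ 2 := by nlinarith [hs.1, hs.2]
    have h2 := Real.sq_sqrt h
    rw [Real.rpow_zero, mul_one, show √(1 - s ^ 2) ^ 4 = (√(1 - s ^ 2) ^ 2) ^ 2 by ring, h2]
    ring
  rw [this, intervalIntegral.integral_add (by apply Continuous.intervalIntegrable; fun_prop)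
    (by apply Continuous.intervalIntegrable; fun_prop),
    intervalIntegral.integral_sub (by apply Continuous.intervalIntegrable; fun_prop)
    (by apply Continuous.intervalIntegrable; fun_prop), intervalIntegral.integral_const_mul]
  simp
  norm_num

lemma I_gt {k : ℝ} (hk : 0 < k) (hk2 : k < 2) :
    32 / 35 < ∫ s in (-1 : ℝ)..1, √(1 - s ^ 2) ^ 4 * √(1 - s ^ 2) ^ k := by
  have h1 : ∫ s in (-1 : ℝ)..1, (1 - 3 * s ^ 2 + 3 * s ^ 4 - s ^ 6) = 32 / 35 := by
    rw [intervalIntegral.integral_sub (by apply Continuous.intervalIntegrable; fun_prop)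
      (by apply Continuous.intervalIntegrable; fun_prop),
      intervalIntegral.integral_add (by apply Continuous.intervalIntegrable; fun_prop)
      (by apply Continuous.intervalIntegrable; fun_prop),
      intervalIntegral.integral_sub (by apply Continuous.intervalIntegrable; fun_prop)
      (by apply Continuous.intervalIntegrable; fun_prop), intervalIntegral.integral_const_mul,
      intervalIntegral.integral_const_mul]
    simp
    norm_num
  rw [← h1]
  have hc : Continuous (fun s : ℝ => √(1 - s ^ 2) ^ 4 * √(1 - s ^ 2) ^ k) := by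
    refine Continuous.mul (by fun_prop) (Continuous.rpow_const (by fun_prop) fun _ => Or.inr hk.le)
  have e : ∀ s ∈ Icc (-1 : ℝ) 1, 1 - 3 * s ^ 2 + 3 * s ^ 4 - s ^ 6 =
      √(1 - s ^ 2) ^ 4 * √(1 - s ^ 2) ^ (2 : ℝ) := by
    intro s hs
    have h : 0 ≤ 1 - s ^ 2 := by nlinarith [hs.1, hs.2]
    rw [Real.rpow_two, show √(1 - s ^ 2) ^ 4 = (√(1 - s ^ 2) ^ 2) ^ 2 by ring, Real.sq_sqrt h]
    ring
  refine intervalIntegral.integral_lt_integral_of_continuousOn_of_le_of_exists_lt (by norm_num)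
    (by fun_prop) hc.continuousOn (fun s hs => ?_) ⟨1 / 2, ⟨by norm_num, by norm_num⟩, ?_⟩
  · rw [e s (Ioc_subset_Icc_self hs)]
    refine mul_le_mul_of_nonneg_left ?_ (by positivity)
    exact Real.rpow_le_rpow_of_exponent_ge' (Real.sqrt_nonneg _)
      (Real.sqrt_le_one.2 (by nlinarith [sq_nonneg s])) hk.le hk2.le
  · rw [e (1 / 2) ⟨by norm_num, by norm_num⟩]
    have h : 0 < √(1 - (1 / 2 : ℝ) ^ 2) := Real.sqrt_pos.2 (by norm_num)
    refine mul_lt_mul_of_pos_left ?_ (by positivity)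
    exact Real.rpow_lt_rpow_of_exponent_gt h ((Real.sqrt_lt' one_pos).2 (by norm_num)) hk2

end Pool.Agent.H27Z.AM
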